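import Pool.Agent.Helper823.ManeN.Defs

set_option autoImplicit false
open MeasureTheory Set Topology

namespace Pool.Agent.Helper823.ManeN
namespace Xcont_lift


/-! TARGET: prove this one -/
theorem continuous_of_lift_proj {n : ℕ} : IsOpenQuotientMap (proj (n := n)) := by
  have h : IsOpenQuotientMap (Pi.map (fun (_ : Fin (n + 1)) (t : ℝ) => (t : UnitAddCircle))) :=
    IsOpenQuotientMap.piMap fun _ => QuotientAddGroup.isOpenQuotientMap_mk
  exact h

theorem continuous_of_lift {n : ℕ} (L : X n × E n → ℝ)
    (h : Continuous (fun z : (Fin (n + 1) → ℝ) × E n => L (proj z.1, z.2))) : Continuous L := by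
  have hq : IsOpenQuotientMap (Prod.map (proj (n := n)) (id : E n → E n)) :=
    continuous_of_lift_proj.prodMap IsOpenQuotientMap.id
  exact hq.isQuotientMap.continuous_iff.2 h

theorem continuous_of_lift' {n : ℕ} (f : X n → ℝ)
    (h : Continuous (fun y : Fin (n + 1) → ℝ => f (proj y))) : Continuous f :=
  continuous_of_lift_proj.isQuotientMap.continuous_iff.2 h


end Xcont_lift

alias continuous_of_lift := Xcont_lift.continuous_of_lift
alias continuous_of_lift' := Xcont_lift.continuous_of_lift'

end Pool.Agent.Helper823.ManeN
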