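import Pool.Agent.Helper823.ManeN.Defs
import Pool.Agent.Helper823.ManeN.Xcont_lift

set_option autoImplicit false
open MeasureTheory Set Topology

namespace Pool.Agent.Helper823.ManeN
namespace Xdecomp







theorem totalDeriv_decomp_add {n : ℕ} (y z : Fin (n + 1) → ℝ) :
    proj (y + z) = proj y + proj z := by
  funext i
  simp [proj]

theorem totalDeriv_decomp_surj {n : ℕ} :
    Function.Surjective (proj : (Fin (n + 1) → ℝ) → X n) := by
  intro x
  have h : ∀ i, ∃ r : ℝ, (r : UnitAddCircle) = x i := fun i => QuotientAddGroup.mk_surjective (x i)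
  choose y hy using h
  exact ⟨y, funext hy⟩

theorem totalDeriv_decomp_per {n : ℕ} (φ : X n → ℝ) (y y' : Fin (n + 1) → ℝ)
    (h : proj y = proj y') :
    fderiv ℝ (fun y => φ (proj y)) y = fderiv ℝ (fun y => φ (proj y)) y' := by
  have hz : proj (y' - y) = 0 := by
    have h1 : proj y' = proj y + proj (y' - y) := by
      rw [← totalDeriv_decomp_add]
      congr 1
      abel
    rw [h] at h1
    exact (add_eq_left.mp h1.symm)
  have hF : (fun u => φ (proj (u + (y' - y)))) = fun u => φ (proj u) := by
    funext u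
    rw [totalDeriv_decomp_add, hz, add_zero]
  have h2 := fderiv_comp_add_right (𝕜 := ℝ) (f := fun u => φ (proj u)) (x := y) (y' - y)
  rw [hF] at h2
  rw [h2]
  congr 1
  abel

theorem totalDeriv_decomp_dir {n : ℕ} (v : E n) :
    dir v = (Pi.single 0 1 : Fin (n + 1) → ℝ) +
      ∑ i : Fin n, v i • (Pi.single i.succ 1 : Fin (n + 1) → ℝ) := by
  funext j
  refine Fin.cases ?_ (fun k => ?_) j
  · simp [dir, Finset.sum_apply, Pi.single_apply, Fin.succ_ne_zero, (Fin.succ_ne_zero _).symm]
  · simp [dir, Finset.sum_apply, Pi.single_apply, Fin.succ_ne_zero]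

/-! TARGET: prove this one -/
theorem totalDeriv_decomp {n : ℕ} (φ : X n → ℝ) (hφ : IsCk 1 φ) :
    ∃ (a : X n → E n) (b : X n → ℝ), Continuous a ∧ Continuous b ∧
      ∀ (x : X n) (v : E n), totalDeriv φ (x, v) = b x + inner ℝ (a x) v := by
  set F : (Fin (n + 1) → ℝ) → ℝ := fun y => φ (proj y) with hF
  have hFs : ContDiff ℝ 1 F := hφ
  have hFd : Differentiable ℝ F := hFs.differentiable (by norm_num)
  have hFc : Continuous (fderiv ℝ F) := hFs.continuous_fderiv (by norm_num)
  set sec : X n → (Fin (n + 1) → ℝ) := Function.surjInv totalDeriv_decomp_surj with hsec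
  have hsecx : ∀ x, proj (sec x) = x := Function.surjInv_eq totalDeriv_decomp_surj
  set g : Fin (n + 1) → X n → ℝ := fun i x => fderiv ℝ F (sec x) (Pi.single i 1) with hg
  have hgc : ∀ i, Continuous (g i) := by
    intro i
    refine continuous_of_lift' _ ?_
    have h1 : (fun y : Fin (n + 1) → ℝ => g i (proj y)) =
        fun y => fderiv ℝ F y (Pi.single i 1) := by
      funext y
      show fderiv ℝ F (sec (proj y)) (Pi.single i 1) = _
      rw [totalDeriv_decomp_per φ (sec (proj y)) y (hsecx _)]
    rw [h1]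
    exact hFc.clm_apply continuous_const
  refine ⟨fun x => WithLp.toLp 2 (fun i : Fin n => g i.succ x), g 0, ?_, hgc 0, ?_⟩
  · exact (PiLp.continuous_toLp 2 _).comp (continuous_pi fun i => hgc i.succ)
  · intro x v
    have h1 : (fun τ : ℝ => φ (x + proj (τ • dir v))) = fun τ : ℝ => F (sec x + τ • dir v) := by
      funext τ
      show _ = φ (proj (sec x + τ • dir v))
      rw [totalDeriv_decomp_add, hsecx]
    have hline : HasDerivAt (fun τ : ℝ => sec x + τ • dir v) (dir v) 0 := by
      have := ((hasDerivAt_id (0 : ℝ)).smul_const (dir v)).const_add (sec x)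
      simpa using this
    have hFx : HasFDerivAt F (fderiv ℝ F (sec x)) (sec x + (0 : ℝ) • dir v) := by
      rw [zero_smul, add_zero]
      exact (hFd (sec x)).hasFDerivAt
    have hcomp : HasDerivAt (fun τ : ℝ => F (sec x + τ • dir v)) (fderiv ℝ F (sec x) (dir v)) 0 :=
      HasFDerivAt.comp_hasDerivAt (l := F) (f := fun τ : ℝ => sec x + τ • dir v) 0 hFx hline
    show deriv (fun τ : ℝ => φ (x + proj (τ • dir v))) 0 = _
    rw [h1, hcomp.deriv, totalDeriv_decomp_dir, map_add, map_sum]
    rw [PiLp.inner_apply]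
    show g 0 x + _ = g 0 x + _
    congr 1
    refine Finset.sum_congr rfl fun i _ => ?_
    rw [map_smul]
    show v i * g i.succ x = inner ℝ (g i.succ x) (v i)
    simp only [RCLike.inner_apply, conj_trivial]


end Xdecomp

alias totalDeriv_decomp := Xdecomp.totalDeriv_decomp

end Pool.Agent.Helper823.ManeN
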