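import Pool.Agent.Helper823.ManeN.Defs
import Pool.Agent.Helper823.ManeN.Xdecomp

set_option autoImplicit false
open MeasureTheory Set Topology

namespace Pool.Agent.Helper823.ManeN
namespace Xexadm





/-! TARGET: prove this one -/
theorem proj_isOpenMap {n : ℕ} : IsOpenMap (proj (n := n)) := by
  have h1 : IsOpenMap (Pi.map (fun (_ : Fin (n + 1)) (y : ℝ) => (y : UnitAddCircle))) := by
    apply IsOpenMap.piMap
    · intro i
      exact QuotientAddGroup.isOpenMap_coe
    · exact Filter.Eventually.of_forall (fun i => QuotientAddGroup.mk_surjective)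
  exact h1

theorem proj_surj {n : ℕ} : Function.Surjective (proj (n := n)) := by
  intro x
  choose y hy using fun i => QuotientAddGroup.mk_surjective (x i)
  exact ⟨y, funext hy⟩

theorem proj_cont {n : ℕ} : Continuous (proj (n := n)) :=
  continuous_pi (fun i => QuotientAddGroup.continuous_mk.comp (continuous_apply i))

theorem proj_add {n : ℕ} (y z : Fin (n + 1) → ℝ) : proj (y + z) = proj y + proj z := by
  funext i
  simp [proj]

theorem isCk_cont {n : ℕ} (φ : X n → ℝ) (hφ : IsCk 1 φ) : Continuous φ := by
  have h1 : Topology.IsQuotientMap (proj (n := n)) := proj_isOpenMap.isQuotientMap proj_cont proj_surj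
  rw [h1.continuous_iff]
  exact hφ.continuous

theorem hasDeriv_shift {n : ℕ} (φ : X n → ℝ) (hφ : IsCk 1 φ) (h : E n) (x : X n) (τ : ℝ) :
    HasDerivAt (fun τ : ℝ => φ (x + proj (τ • dir h))) (totalDeriv φ (x + proj (τ • dir h), h)) τ := by
  obtain ⟨y, rfl⟩ := proj_surj x
  have hd : Differentiable ℝ (fun y => φ (proj y)) := hφ.differentiable (by norm_num)
  have h1 : ∀ s : ℝ, DifferentiableAt ℝ (fun τ : ℝ => φ (proj y + proj (τ • dir h))) s := by
    intro s
    have h2 : (fun τ : ℝ => φ (proj y + proj (τ • dir h))) =
        (fun y => φ (proj y)) ∘ (fun τ : ℝ => y + τ • dir h) := by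
      funext τ
      simp only [Function.comp, proj_add]
    rw [h2]
    exact (hd _).comp s (by fun_prop)
  have h3 : totalDeriv φ (proj y + proj (τ • dir h), h) =
      deriv (fun τ : ℝ => φ (proj y + proj (τ • dir h))) τ := by
    unfold totalDeriv
    have h4 : (fun s : ℝ => φ ((proj y + proj (τ • dir h), h).1 + proj (s • dir (proj y + proj (τ • dir h), h).2))) =
        fun s : ℝ => (fun τ : ℝ => φ (proj y + proj (τ • dir h))) (s + τ) := by
      funext s
      simp only
      rw [add_smul, proj_add, add_assoc, add_comm (proj (τ • dir h))]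
    rw [h4]
    exact (deriv_comp_add_const (fun τ : ℝ => φ (proj y + proj (τ • dir h))) τ 0).trans (by rw [zero_add])
  rw [h3]
  exact (h1 τ).hasDerivAt

theorem exists_adm {n : ℕ} (L : X n × E n → ℝ) (hL : Continuous L) (h : E n) :
    ∃ μ, Adm L h μ := by
  haveI hp1 : IsProbabilityMeasure (volume : Measure UnitAddCircle) := ⟨by
    rw [UnitAddCircle.measure_univ]⟩
  haveI hprob : IsProbabilityMeasure (volume : Measure (X n)) := by
    unfold X UnitAddTorus
    infer_instance
  have hmeas : Measurable (fun x : X n => (x, h)) := by fun_prop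
  have hcont : Continuous (fun x : X n => (x, h)) := by fun_prop
  have hint : ∀ F : X n × E n → ℝ, Continuous F → Integrable F ((volume : Measure (X n)).map (fun x => (x, h))) := by
    intro F hF
    rw [integrable_map_measure hF.aestronglyMeasurable hmeas.aemeasurable]
    exact (hF.comp hcont).integrable_of_hasCompactSupport (HasCompactSupport.of_compactSpace _)
  refine ⟨(volume : Measure (X n)).map (fun x => (x, h)), ⟨?_, ?_, ?_⟩, hint L hL, ?_⟩
  · exact Measure.isProbabilityMeasure_map hmeas.aemeasurable
  · exact hint _ (by fun_prop)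
  · intro φ hφ
    obtain ⟨a, b, ha, hb, hab⟩ := totalDeriv_decomp φ hφ
    have hTc : Continuous (fun p : X n × E n => totalDeriv φ p) := by
      have : (fun p : X n × E n => totalDeriv φ p) = fun p => b p.1 + inner ℝ (a p.1) p.2 := by
        funext p
        exact hab p.1 p.2
      rw [this]
      fun_prop
    rw [integral_map hmeas.aemeasurable hTc.aestronglyMeasurable]
    have hTx : Continuous (fun x : X n => totalDeriv φ (x, h)) := hTc.comp hcont
    obtain ⟨K, hK⟩ := isCompact_univ.exists_bound_of_continuousOn hTx.continuousOn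
    have hφc := isCk_cont φ hφ
    have hder : HasDerivAt (fun τ : ℝ => ∫ x : X n, φ (x + proj (τ • dir h)))
        (∫ x : X n, totalDeriv φ (x + proj ((0 : ℝ) • dir h), h)) 0 := by
      refine (hasDerivAt_integral_of_dominated_loc_of_deriv_le (bound := fun _ => K)
        (F := fun (τ : ℝ) (x : X n) => φ (x + proj (τ • dir h)))
        (F' := fun (τ : ℝ) (x : X n) => totalDeriv φ (x + proj (τ • dir h), h))
        (Metric.ball_mem_nhds (0 : ℝ) one_pos) ?_ ?_ ?_ ?_ ?_ ?_).2
      · exact Filter.Eventually.of_forall (fun τ =>
          (hφc.comp (by fun_prop)).aestronglyMeasurable)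
      · exact (hφc.comp (by fun_prop)).integrable_of_hasCompactSupport (HasCompactSupport.of_compactSpace _)
      · exact (hTx.comp (f := fun x : X n => x + proj ((0:ℝ) • dir h)) (by fun_prop)).aestronglyMeasurable
      · exact Filter.Eventually.of_forall (fun x τ _ => hK _ (mem_univ _))
      · exact integrable_const K
      · exact Filter.Eventually.of_forall (fun x τ _ => hasDeriv_shift φ hφ h x τ)
    have hconst : (fun τ : ℝ => ∫ x : X n, φ (x + proj (τ • dir h))) = fun _ => ∫ x : X n, φ x := by
      funext τ
      exact integral_add_right_eq_self φ _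
    rw [hconst] at hder
    have h0 := hder.unique (hasDerivAt_const _ _)
    have hz : proj ((0 : ℝ) • dir h) = 0 := by
      funext i
      simp [proj]
    rw [hz] at h0
    simpa using h0
  · unfold rot
    rw [integral_map hmeas.aemeasurable (by fun_prop)]
    simp


end Xexadm

alias exists_adm := Xexadm.exists_adm

end Pool.Agent.Helper823.ManeN
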