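import Pool.Agent.Helper823.ManeN.Defs
import Pool.Agent.Helper823.ManeN.Xexadm

set_option autoImplicit false
open MeasureTheory Set Topology

namespace Pool.Agent.Helper823.ManeN
namespace Xbconc





/-! TARGET: prove this one -/
theorem beta_concave {n : ℕ} (L : X n × E n → ℝ) (hL : Nice L) (f g : X n → ℝ)
    (hf : Continuous f) (hg : Continuous g) (h : E n) :
    ConcaveOn ℝ Set.univ (fun s : ℝ => beta L (fun x => f x + s * g x) h) := by
  have hint : ∀ (u : X n → ℝ), Continuous u → ∀ μ : Measure (X n × E n), IsProbabilityMeasure μ →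
      Integrable (fun p : X n × E n => u p.1) μ := by
    intro u hu μ hμ
    obtain ⟨C, hC⟩ := isCompact_univ.exists_bound_of_continuousOn hu.continuousOn
    refine Integrable.of_bound (hu.comp continuous_fst).aestronglyMeasurable C ?_
    exact Filter.Eventually.of_forall (fun p => hC p.1 (Set.mem_univ _))
  have hbdd : ∀ u : X n → ℝ, Continuous u →
      BddBelow {a : ℝ | ∃ μ : Measure (X n × E n), Adm L h μ ∧ a = ∫ p, (L p + u p.1) ∂μ} := by
    intro u hu
    obtain ⟨C, hC⟩ := isCompact_univ.exists_bound_of_continuousOn hu.continuousOn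
    obtain ⟨B, hB⟩ := hL.bdd
    refine ⟨B - C, ?_⟩
    rintro _ ⟨μ, hμ, rfl⟩
    haveI := hμ.1.prob
    have h1 : ∫ _p : X n × E n, (B - C) ∂μ ≤ ∫ p, (L p + u p.1) ∂μ := by
      refine integral_mono (integrable_const _) (hμ.2.1.add (hint u hu μ hμ.1.prob)) ?_
      intro p
      have h2 := hC p.1 (Set.mem_univ _)
      rw [Real.norm_eq_abs] at h2
      have h3 := neg_abs_le (u p.1)
      have h4 := hB p
      show B - C ≤ L p + u p.1
      linarith
    simpa using h1
  refine ⟨convex_univ, ?_⟩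
  intro s _ t _ a b ha hb hab
  obtain ⟨μ0, hμ0⟩ := exists_adm L hL.cont h
  show a • beta L (fun x => f x + s * g x) h + b • beta L (fun x => f x + t * g x) h ≤
    beta L (fun x => f x + (a • s + b • t) * g x) h
  rw [beta]
  conv_rhs => rw [beta]
  refine le_csInf ⟨_, μ0, hμ0, rfl⟩ ?_
  rintro _ ⟨μ, hμ, rfl⟩
  have hp := hμ.1.prob
  have cs : Continuous (fun x => f x + s * g x) := by fun_prop
  have ct : Continuous (fun x => f x + t * g x) := by fun_prop
  have i1 : Integrable (fun p : X n × E n => L p + (f p.1 + s * g p.1)) μ :=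
    hμ.2.1.add (hint _ cs μ hp)
  have i2 : Integrable (fun p : X n × E n => L p + (f p.1 + t * g p.1)) μ :=
    hμ.2.1.add (hint _ ct μ hp)
  have e : ∫ p, (L p + (f p.1 + (a • s + b • t) * g p.1)) ∂μ =
      a * ∫ p, (L p + (f p.1 + s * g p.1)) ∂μ + b * ∫ p, (L p + (f p.1 + t * g p.1)) ∂μ := by
    rw [← integral_const_mul, ← integral_const_mul, ← integral_add (i1.const_mul a) (i2.const_mul b)]
    congr 1
    ext p
    simp only [smul_eq_mul]
    have hb' : b = 1 - a := by linarith
    rw [hb']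
    ring
  rw [e]
  have k1 : beta L (fun x => f x + s * g x) h ≤ ∫ p, (L p + (f p.1 + s * g p.1)) ∂μ :=
    csInf_le (hbdd _ cs) ⟨μ, hμ, rfl⟩
  have k2 : beta L (fun x => f x + t * g x) h ≤ ∫ p, (L p + (f p.1 + t * g p.1)) ∂μ :=
    csInf_le (hbdd _ ct) ⟨μ, hμ, rfl⟩
  exact add_le_add (mul_le_mul_of_nonneg_left k1 ha) (mul_le_mul_of_nonneg_left k2 hb)



end Xbconc

alias beta_concave := Xbconc.beta_concave

end Pool.Agent.Helper823.ManeN
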