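import Pool.Agent.Helper823.ManeN.Defs
import Pool.Agent.Helper823.ManeN.Xdecomp

set_option autoImplicit false
open MeasureTheory Set Topology

namespace Pool.Agent.Helper823.ManeN
namespace Xmix





theorem mix_integrable {n : ℕ} {G : Type} [NormedAddCommGroup G] (μ ν : Measure (X n × E n)) (a b : ℝ)
    (F : X n × E n → G) (h1 : Integrable F μ) (h2 : Integrable F ν) :
    Integrable F (ENNReal.ofReal a • μ + ENNReal.ofReal b • ν) :=
  (h1.smul_measure ENNReal.ofReal_ne_top).add_measure (h2.smul_measure ENNReal.ofReal_ne_top)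

theorem mix_integral {n : ℕ} {G : Type} [NormedAddCommGroup G] [NormedSpace ℝ G] (μ ν : Measure (X n × E n))
    (a b : ℝ) (ha : 0 ≤ a) (hb : 0 ≤ b)
    (F : X n × E n → G) (h1 : Integrable F μ) (h2 : Integrable F ν) :
    ∫ p, F p ∂(ENNReal.ofReal a • μ + ENNReal.ofReal b • ν) =
      a • ∫ p, F p ∂μ + b • ∫ p, F p ∂ν := by
  rw [integral_add_measure (h1.smul_measure ENNReal.ofReal_ne_top)
    (h2.smul_measure ENNReal.ofReal_ne_top), integral_smul_measure, integral_smul_measure,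
    ENNReal.toReal_ofReal ha, ENNReal.toReal_ofReal hb]

theorem totalDeriv_integrable {n : ℕ} (μ : Measure (X n × E n)) (hμ : IsClosedMeasure μ) (φ : X n → ℝ)
    (hφ : IsCk 1 φ) : Integrable (totalDeriv φ) μ := by
  have := hμ.prob
  obtain ⟨a, b, ha, hb, hab⟩ := totalDeriv_decomp φ hφ
  have h1 : totalDeriv φ = fun p : X n × E n => b p.1 + inner ℝ (a p.1) p.2 := by
    funext p
    exact hab p.1 p.2
  rw [h1]
  obtain ⟨B, hB⟩ : ∃ B, ∀ x : X n, ‖b x‖ ≤ B := by
    obtain ⟨B, hB⟩ := (isCompact_range hb).isBounded.exists_norm_le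
    exact ⟨B, fun x => hB _ ⟨x, rfl⟩⟩
  obtain ⟨A, hA⟩ : ∃ A, ∀ x : X n, ‖a x‖ ≤ A := by
    obtain ⟨A, hA⟩ := (isCompact_range ha).isBounded.exists_norm_le
    exact ⟨A, fun x => hA _ ⟨x, rfl⟩⟩
  refine Integrable.add ?_ ?_
  · refine Integrable.of_bound (hb.comp continuous_fst).aestronglyMeasurable B ?_
    exact Filter.Eventually.of_forall fun p => hB p.1
  · refine (hμ.moment.const_mul A).mono' ?_ ?_
    · exact (Continuous.inner (ha.comp continuous_fst) continuous_snd).aestronglyMeasurable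
    · refine Filter.Eventually.of_forall fun p => ?_
      calc ‖inner ℝ (a p.1) p.2‖ ≤ ‖a p.1‖ * ‖p.2‖ := norm_inner_le_norm _ _
        _ ≤ A * ‖p.2‖ := mul_le_mul_of_nonneg_right (hA p.1) (norm_nonneg _)

theorem snd_integrable {n : ℕ} (μ : Measure (X n × E n)) (hμ : IsClosedMeasure μ) :
    Integrable (fun p : X n × E n => p.2) μ :=
  (integrable_norm_iff continuous_snd.aestronglyMeasurable).1 hμ.moment

/-! TARGET: prove this one -/
theorem adm_mix {n : ℕ} (L : X n × E n → ℝ) (h h' : E n) (μ ν : Measure (X n × E n))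
    (hμ : Adm L h μ) (hν : Adm L h' ν) (a b : ℝ) (ha : 0 ≤ a) (hb : 0 ≤ b) (hab : a + b = 1) :
    Adm L (a • h + b • h') (ENNReal.ofReal a • μ + ENNReal.ofReal b • ν) ∧
      ∀ F : X n × E n → ℝ, Integrable F μ → Integrable F ν →
        ∫ p, F p ∂(ENNReal.ofReal a • μ + ENNReal.ofReal b • ν)
          = a * ∫ p, F p ∂μ + b * ∫ p, F p ∂ν := by
  obtain ⟨hμ1, hμ2, hμ3⟩ := hμ
  obtain ⟨hν1, hν2, hν3⟩ := hν
  refine ⟨⟨⟨?_, ?_, ?_⟩, ?_, ?_⟩, ?_⟩
  · have h1 := hμ1.prob
    have h2 := hν1.prob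
    refine ⟨?_⟩
    rw [Measure.add_apply, Measure.smul_apply, Measure.smul_apply, measure_univ, measure_univ,
      smul_eq_mul, smul_eq_mul, mul_one, mul_one, ← ENNReal.ofReal_add ha hb, hab,
      ENNReal.ofReal_one]
  · exact mix_integrable μ ν a b _ hμ1.moment hν1.moment
  · intro φ hφ
    have h1 := mix_integral μ ν a b ha hb (totalDeriv φ) (totalDeriv_integrable μ hμ1 φ hφ)
      (totalDeriv_integrable ν hν1 φ hφ)
    rw [h1, hμ1.closed φ hφ, hν1.closed φ hφ]
    simp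
  · exact mix_integrable μ ν a b _ hμ2 hν2
  · have h1 := mix_integral μ ν a b ha hb (fun p : X n × E n => p.2) (snd_integrable μ hμ1)
      (snd_integrable ν hν1)
    rw [rot, h1, ← hμ3, ← hν3, rot, rot]
  · intro F h1 h2
    have := mix_integral μ ν a b ha hb F h1 h2
    simpa [smul_eq_mul] using this


end Xmix

alias adm_mix := Xmix.adm_mix

end Pool.Agent.Helper823.ManeN
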