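import Pool.Agent.Helper823.ManeN.Defs
import Pool.Agent.Helper823.ManeN.Xexadm
import Pool.Agent.Helper823.ManeN.Xmix

set_option autoImplicit false
open MeasureTheory Set Topology

namespace Pool.Agent.Helper823.ManeN
namespace Xbconv







/-! TARGET: prove this one -/
theorem beta_convex {n : ℕ} (L : X n × E n → ℝ) (hL : Nice L) (f : X n → ℝ)
    (hf : Continuous f) : ConvexOn ℝ Set.univ (beta L f) := by
  obtain ⟨C, hC⟩ := isCompact_univ.exists_bound_of_continuousOn (f := f) hf.continuousOn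
  obtain ⟨B, hB⟩ := hL.bdd
  have hInt : ∀ (h : E n) (μ : Measure (X n × E n)), Adm L h μ →
      Integrable (fun p : X n × E n => L p + f p.1) μ := by
    intro h μ hμ
    haveI := hμ.1.prob
    refine hμ.2.1.add ?_
    refine Integrable.of_bound (C := C) ?_ ?_
    · exact (hf.comp continuous_fst).aestronglyMeasurable
    · exact Filter.Eventually.of_forall (fun p => hC p.1 (Set.mem_univ _))
  have hbdd : ∀ h : E n, BddBelow
      {a : ℝ | ∃ μ : Measure (X n × E n), Adm L h μ ∧ a = ∫ p, (L p + f p.1) ∂μ} := by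
    intro h
    refine ⟨B - C, ?_⟩
    rintro a ⟨μ, hμ, rfl⟩
    haveI := hμ.1.prob
    have h1 : ∫ p : X n × E n, (B - C) ∂μ ≤ ∫ p, (L p + f p.1) ∂μ := by
      refine integral_mono (integrable_const _) (hInt h μ hμ) ?_
      intro p
      have h2 := hB p
      have h3 := hC p.1 (Set.mem_univ _)
      rw [Real.norm_eq_abs] at h3
      have h4 := (abs_le.1 h3).1
      show B - C ≤ L p + f p.1
      linarith
    simpa using h1
  have hne : ∀ h : E n,
      {a : ℝ | ∃ μ : Measure (X n × E n), Adm L h μ ∧ a = ∫ p, (L p + f p.1) ∂μ}.Nonempty := by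
    intro h
    obtain ⟨μ, hμ⟩ := exists_adm L hL.cont h
    exact ⟨_, μ, hμ, rfl⟩
  refine ⟨convex_univ, ?_⟩
  intro h _ h' _ a b ha hb hab
  refine le_of_forall_pos_le_add ?_
  intro ε hε
  have e1 : beta L f h < beta L f h + ε := by linarith
  have e2 : beta L f h' < beta L f h' + ε := by linarith
  obtain ⟨x, ⟨μ, hμ, rfl⟩, hx⟩ := exists_lt_of_csInf_lt (hne h) e1
  obtain ⟨y, ⟨ν, hν, rfl⟩, hy⟩ := exists_lt_of_csInf_lt (hne h') e2
  obtain ⟨m1, m2⟩ := adm_mix L h h' μ ν hμ hν a b ha hb hab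
  have m3 := m2 (fun p => L p + f p.1) (hInt h μ hμ) (hInt h' ν hν)
  have m4 : beta L f (a • h + b • h') ≤
      ∫ p, (L p + f p.1) ∂(ENNReal.ofReal a • μ + ENNReal.ofReal b • ν) :=
    csInf_le (hbdd _) ⟨_, m1, rfl⟩
  have m5 : a * ∫ p, (L p + f p.1) ∂μ ≤ a * (beta L f h + ε) :=
    mul_le_mul_of_nonneg_left hx.le ha
  have m6 : b * ∫ p, (L p + f p.1) ∂ν ≤ b * (beta L f h' + ε) :=
    mul_le_mul_of_nonneg_left hy.le hb
  have m7 : a * (beta L f h + ε) + b * (beta L f h' + ε) =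
      a • beta L f h + b • beta L f h' + ε := by
    simp only [smul_eq_mul]
    have : ε = (a + b) * ε := by rw [hab]; ring
    nlinarith
  calc beta L f (a • h + b • h')
      ≤ ∫ p, (L p + f p.1) ∂(ENNReal.ofReal a • μ + ENNReal.ofReal b • ν) := m4
    _ = a * ∫ p, (L p + f p.1) ∂μ + b * ∫ p, (L p + f p.1) ∂ν := m3
    _ ≤ a * (beta L f h + ε) + b * (beta L f h' + ε) := add_le_add m5 m6
    _ = a • beta L f h + b • beta L f h' + ε := m7


end Xbconv

alias beta_convex := Xbconv.beta_convex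

end Pool.Agent.Helper823.ManeN
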