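import Pool.Agent.Helper823.ManeN.Defs
import Pool.Agent.Helper823.ManeN.Xexadm

set_option autoImplicit false
open MeasureTheory Set Topology

namespace Pool.Agent.Helper823.ManeN
namespace Xbmin






lemma bound_of_cont {n : ℕ} (f : X n → ℝ) (hf : Continuous f) : ∃ C : ℝ, ∀ x, |f x| ≤ C := by
  obtain ⟨C, hC⟩ := (isCompact_range hf).isBounded.exists_norm_le
  exact ⟨C, fun x => by simpa using hC (f x) ⟨x, rfl⟩⟩

lemma int_f {n : ℕ} (f : X n → ℝ) (hf : Continuous f) (μ : Measure (X n × E n)) [IsProbabilityMeasure μ] :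
    Integrable (fun p : X n × E n => f p.1) μ := by
  obtain ⟨C, hC⟩ := bound_of_cont f hf
  refine Integrable.of_bound (hf.comp continuous_fst).aestronglyMeasurable C ?_
  exact Filter.Eventually.of_forall fun p => by simpa using hC p.1

lemma adm_iff {n : ℕ} (L : X n × E n → ℝ) (f : X n → ℝ) (hf : Continuous f) (h : E n) (μ : Measure (X n × E n)) :
    Adm L h μ ↔ Adm (fun p => L p + f p.1) h μ := by
  constructor
  · rintro ⟨h1, h2, h3⟩
    haveI := h1.prob
    exact ⟨h1, h2.add (int_f f hf μ), h3⟩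
  · rintro ⟨h1, h2, h3⟩
    haveI := h1.prob
    refine ⟨h1, ?_, h3⟩
    have := h2.sub (int_f f hf μ)
    refine this.congr (Filter.Eventually.of_forall fun p => ?_)
    simp

/-! TARGET: prove this one -/
theorem beta_eq_of_min {n : ℕ} (L : X n × E n → ℝ) (hL : Nice L) (f : X n → ℝ)
    (hf : Continuous f) (h : E n)
    (μ : Measure (X n × E n)) (hμ : IsMinimizing (fun p => L p + f p.1) h μ) :
    Adm L h μ ∧ beta L f h = ∫ p, (L p + f p.1) ∂μ ∧
      ∀ g : X n → ℝ, Continuous g → ∀ s : ℝ,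
        beta L (fun x => f x + s * g x) h ≤ beta L f h + s * ∫ p, g p.1 ∂μ := by
  have hA : Adm L h μ := (adm_iff L f hf h μ).2 hμ.1
  have hbeta : beta L f h = ∫ p, (L p + f p.1) ∂μ := by
    unfold beta
    refine IsLeast.csInf_eq ⟨⟨μ, hA, rfl⟩, ?_⟩
    rintro a ⟨ν, hν, rfl⟩
    exact hμ.2 ν ((adm_iff L f hf h ν).1 hν)
  refine ⟨hA, hbeta, fun g hg s => ?_⟩
  haveI := hA.1.prob
  have hf' : Continuous (fun x => f x + s * g x) := hf.add (continuous_const.mul hg)
  have hle : beta L (fun x => f x + s * g x) h ≤ ∫ p, (L p + (f p.1 + s * g p.1)) ∂μ := by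
    unfold beta
    refine csInf_le ?_ ⟨μ, hA, rfl⟩
    obtain ⟨B, hB⟩ := hL.bdd
    obtain ⟨C, hC⟩ := bound_of_cont _ hf'
    refine ⟨B - C, ?_⟩
    rintro a ⟨ν, hν, rfl⟩
    haveI := hν.1.prob
    have h1 : ∫ _p : X n × E n, (B - C) ∂ν = B - C := by simp
    rw [← h1]
    refine integral_mono (integrable_const _) (hν.2.1.add (int_f _ hf' ν)) fun p => ?_
    have h2 := hB p
    have h3 := (abs_le.1 (hC p.1)).1
    simp only at *
    linarith
  refine hle.trans (le_of_eq ?_)
  rw [hbeta]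
  have e1 : (fun p : X n × E n => L p + (f p.1 + s * g p.1))
      = fun p => (L p + f p.1) + s * g p.1 := by
    funext p; ring
  have i1 : Integrable (fun p : X n × E n => L p + f p.1) μ := hA.2.1.add (int_f f hf μ)
  have i2 : Integrable (fun p : X n × E n => s * g p.1) μ := (int_f g hg μ).const_mul s
  rw [e1, integral_add i1 i2, integral_const_mul]



end Xbmin

alias beta_eq_of_min := Xbmin.beta_eq_of_min

end Pool.Agent.Helper823.ManeN
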