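import Pool.Agent.Helper823.ManeN.Defs

set_option autoImplicit false
open MeasureTheory Set Topology

namespace Pool.Agent.Helper823.ManeN
namespace Xckbdd


theorem cs_proj {m : ℕ} (y : Fin (m + 1) → ℝ) (n : Fin (m + 1) → ℤ) :
    proj (y + fun i => (n i : ℝ)) = proj y := by
  funext i
  show ((y i + (n i : ℝ) : ℝ) : UnitAddCircle) = (y i : UnitAddCircle)
  rw [AddCircle.coe_add]
  have : (((n i : ℝ)) : UnitAddCircle) = 0 := by
    rw [AddCircle.coe_eq_zero_iff]
    exact ⟨n i, by simp⟩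
  rw [this, add_zero]

theorem cs_bound {m : ℕ} (k : ℕ) (g : X m → ℝ) (hg : IsCk k g) (j : ℕ) (hj : j ≤ k) :
    ∃ C : ℝ, ∀ y : Fin (m + 1) → ℝ, ‖iteratedFDeriv ℝ j (fun z => g (proj z)) y‖ ≤ C := by
  have hcont : Continuous (fun y : Fin (m + 1) → ℝ => iteratedFDeriv ℝ j (fun z => g (proj z)) y) :=
    ContDiff.continuous_iteratedFDeriv (by exact_mod_cast hj) hg
  have hK : IsCompact (Set.Icc (0 : Fin (m + 1) → ℝ) 1) := isCompact_Icc
  obtain ⟨C, hC⟩ := hK.exists_bound_of_continuousOn hcont.continuousOn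
  refine ⟨C, fun y => ?_⟩
  have hper : ∀ n : Fin (m + 1) → ℤ, iteratedFDeriv ℝ j (fun z => g (proj z)) (y + fun i => (n i : ℝ)) = 
      iteratedFDeriv ℝ j (fun z => g (proj z)) y := by
    intro n
    rw [← iteratedFDeriv_comp_add_right]
    simp only [cs_proj]
  have h1 := hper (fun i => -⌊y i⌋)
  rw [← h1]
  apply hC
  constructor
  · intro i
    show (0:ℝ) ≤ y i + ((-⌊y i⌋ : ℤ) : ℝ)
    have := Int.fract_nonneg (y i)
    rw [Int.fract] at this
    push_cast
    linarith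
  · intro i
    show y i + ((-⌊y i⌋ : ℤ) : ℝ) ≤ 1
    have := Int.fract_lt_one (y i)
    rw [Int.fract] at this
    push_cast
    linarith

/-! TARGET: prove this one -/
theorem close_small {n : ℕ} (k : ℕ) (f g : X n → ℝ) (hg : IsCk k g) (ε : ℝ)
    (hε : 0 < ε) : ∃ η > 0, ∀ s : ℝ, |s| < η → CloseCk k f (fun x => f x + s * g x) ε := by
  have hb : ∀ j : ℕ, ∃ C : ℝ, j ≤ k → ∀ y : Fin (n + 1) → ℝ, ‖iteratedFDeriv ℝ j (fun z => g (proj z)) y‖ ≤ C := by
    intro j
    by_cases hj : j ≤ k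
    · obtain ⟨C, hC⟩ := cs_bound k g hg j hj
      exact ⟨C, fun _ => hC⟩
    · exact ⟨0, fun h => absurd h hj⟩
  choose C hC using hb
  obtain ⟨D, hD⟩ : ∃ D : ℝ, D = ∑ j ∈ Finset.range (k + 1), |C j| := ⟨_, rfl⟩
  have hD0 : 0 ≤ D := by rw [hD]; positivity
  have hCD : ∀ j ≤ k, C j ≤ D := by
    intro j hj
    rw [hD]
    exact (le_abs_self _).trans (Finset.single_le_sum (f := fun j => |C j|) (fun _ _ => abs_nonneg _)
      (Finset.mem_range.2 (Nat.lt_succ_of_le hj)))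
  refine ⟨ε / (D + 1), by positivity, fun s hs j hj y => ?_⟩
  have hfun : (fun z : Fin (n + 1) → ℝ => f (proj z) - (fun x => f x + s * g x) (proj z)) = 
      (-s) • (fun z : Fin (n + 1) → ℝ => g (proj z)) := by
    funext z
    simp only [Pi.smul_apply, smul_eq_mul]
    ring
  have hat : ContDiffAt ℝ j (fun z : Fin (n + 1) → ℝ => g (proj z)) y := 
    (ContDiff.of_le hg (by exact_mod_cast hj)).contDiffAt
  rw [hfun, iteratedFDeriv_const_smul_apply hat, norm_smul, norm_neg, Real.norm_eq_abs]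
  have h1 := (hC j hj y).trans (hCD j hj)
  rw [lt_div_iff₀ (by positivity)] at hs
  calc |s| * ‖iteratedFDeriv ℝ j (fun z => g (proj z)) y‖ ≤ |s| * D := 
        mul_le_mul_of_nonneg_left h1 (abs_nonneg _)
    _ ≤ |s| * (D + 1) := mul_le_mul_of_nonneg_left (by linarith) (abs_nonneg _)
    _ < ε := hs



end Xckbdd

alias close_small := Xckbdd.close_small

end Pool.Agent.Helper823.ManeN
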