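import Pool.Agent.Helper823.ManeN.Defs

set_option autoImplicit false
open MeasureTheory Set

namespace Pool.Agent.Helper823.ManeN
namespace Xtwosup

/-- a concave function on the line that is not differentiable at `s` has two different
supergradients at `s` -/
theorem two_supergradients (f : ℝ → ℝ) (hf : ConcaveOn ℝ Set.univ f) (s : ℝ)
    (hs : ¬ DifferentiableAt ℝ f s) :
    ∃ r₁ r₂ : ℝ, r₁ < r₂ ∧ (∀ y, f y ≤ f s + r₁ * (y - s)) ∧ (∀ y, f y ≤ f s + r₂ * (y - s)) := by
  have hg : ConvexOn ℝ Set.univ (-f) := hf.neg
  have hint : s ∈ interior (Set.univ : Set ℝ) := by simp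
  set L := derivWithin (-f) (Iio s) s with hL
  set R := derivWithin (-f) (Ioi s) s with hR
  have hLR : L ≤ R := hg.leftDeriv_le_rightDeriv_of_mem_interior hint
  have hne : L ≠ R := by
    intro he
    apply hs
    have h1 := hg.hasDerivWithinAt_rightDeriv_of_mem_interior hint
    have h2 := hg.hasDerivWithinAt_leftDeriv_of_mem_interior hint
    rw [← hR] at h1
    rw [← hL, he] at h2
    have h3 : HasDerivWithinAt (-f) R (Ici s) s := hasDerivWithinAt_Ioi_iff_Ici.1 h1
    have h4 : HasDerivWithinAt (-f) R (Iic s) s := hasDerivWithinAt_Iio_iff_Iic.1 h2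
    have h5 := h4.union h3
    rw [Iic_union_Ici, hasDerivWithinAt_univ] at h5
    have h6 := h5.differentiableAt.neg
    rwa [neg_neg] at h6
  have hlt : L < R := lt_of_le_of_ne hLR hne
  have hright : ∀ y, s < y → R * (y - s) ≤ f s - f y := by
    intro y hy
    have h1 := hg.rightDeriv_le_slope_of_mem_interior hint (mem_univ y) hy
    rw [← hR, slope_def_field, le_div_iff₀ (by linarith)] at h1
    simp only [Pi.neg_apply] at h1
    linarith
  have hleft : ∀ y, y < s → L * (y - s) ≤ f s - f y := by
    intro y hy
    have h1 := hg.slope_le_leftDeriv_of_mem_interior (mem_univ y) hint hy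
    rw [← hL, slope_def_field, div_le_iff₀ (by linarith)] at h1
    simp only [Pi.neg_apply] at h1
    linarith
  refine ⟨-R, -L, by linarith, fun y => ?_, fun y => ?_⟩
  · rcases lt_trichotomy y s with h | h | h
    · have := hleft y h
      nlinarith
    · subst h; simp
    · have := hright y h
      linarith
  · rcases lt_trichotomy y s with h | h | h
    · have := hleft y h
      linarith
    · subst h; simp
    · have := hright y h
      nlinarith


end Xtwosup

alias two_supergradients := Xtwosup.two_supergradients

end Pool.Agent.Helper823.ManeN
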