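import Pool.Agent.Helper823.ManeN.Defs
import Pool.Agent.Helper823.ManeN.Xtwosup

set_option autoImplicit false
open MeasureTheory Set Topology

namespace Pool.Agent.Helper823.ManeN
namespace Xdiffgood





/-! TARGET: prove this one -/
theorem second_difference (G : ℝ → ℝ) (hG : ConcaveOn ℝ Set.univ G) (s : ℝ) :
    DifferentiableAt ℝ G s ↔ ∀ ε > 0, ∃ δ > 0, -(ε * δ) < G (s + δ) + G (s - δ) - 2 * G s := by
  constructor
  · intro hd ε hε
    have h1 := hd.hasDerivAt
    rw [hasDerivAt_iff_isLittleO_nhds_zero] at h1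
    have h2 := h1.def (show (0:ℝ) < ε / 4 by positivity)
    rw [Metric.eventually_nhds_iff] at h2
    obtain ⟨η, hη, h3⟩ := h2
    refine ⟨η / 2, by positivity, ?_⟩
    have ha := h3 (y := η / 2) (by
      rw [Real.dist_eq, sub_zero, abs_of_pos (by positivity)]; linarith)
    have hb := h3 (y := -(η / 2)) (by
      rw [Real.dist_eq, sub_zero, abs_neg, abs_of_pos (by positivity)]; linarith)
    rw [Real.norm_eq_abs, Real.norm_eq_abs, abs_of_pos (show (0:ℝ) < η / 2 by positivity)] at ha
    rw [Real.norm_eq_abs, Real.norm_eq_abs, abs_neg,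
      abs_of_pos (show (0:ℝ) < η / 2 by positivity)] at hb
    have ha' := (abs_le.mp ha).1
    have hb' := (abs_le.mp hb).1
    simp only [smul_eq_mul] at ha' hb'
    have e1 : s + -(η / 2) = s - η / 2 := by ring
    rw [e1] at hb'
    have hεη : 0 < ε * η := by positivity
    nlinarith
  · intro h
    by_contra hn
    obtain ⟨r₁, r₂, hr, h1, h2⟩ := two_supergradients G hG s hn
    obtain ⟨δ, hδ, h3⟩ := h (r₂ - r₁) (by linarith)
    have a1 := h1 (s + δ)
    have a2 := h2 (s - δ)
    nlinarith


end Xdiffgood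

alias second_difference := Xdiffgood.second_difference

end Pool.Agent.Helper823.ManeN
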