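import Pool.Agent.Helper823.ManeN.Defs

set_option autoImplicit false
open MeasureTheory Set Topology

namespace Pool.Agent.Helper823.ManeN
namespace Xfourier


/-! TARGET: prove this one -/
theorem measure_ext_fourier {n : ℕ} (m₁ m₂ : Measure (X n)) [IsProbabilityMeasure m₁]
    [IsProbabilityMeasure m₂]
    (hre : ∀ a : Fin (n + 1) → ℤ, ∫ x, (UnitAddTorus.mFourier a x).re ∂m₁
      = ∫ x, (UnitAddTorus.mFourier a x).re ∂m₂)
    (him : ∀ a : Fin (n + 1) → ℤ, ∫ x, (UnitAddTorus.mFourier a x).im ∂m₁
      = ∫ x, (UnitAddTorus.mFourier a x).im ∂m₂) : m₁ = m₂ := by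
  have hint : ∀ (m : Measure (X n)) [IsProbabilityMeasure m] (g : C(X n, ℂ)),
      Integrable (fun x => g x) m := by
    intro m _ g
    exact g.continuous.integrable_of_hasCompactSupport (HasCompactSupport.of_compactSpace g)
  have hcont : ∀ (m : Measure (X n)) [IsProbabilityMeasure m],
      Continuous (fun g : C(X n, ℂ) => ∫ x, g x ∂m) := by
    intro m _
    have hL : LipschitzWith 1 (fun g : C(X n, ℂ) => ∫ x, g x ∂m) := by
      refine LipschitzWith.of_dist_le_mul fun g h => ?_
      rw [NNReal.coe_one, one_mul, dist_eq_norm, dist_eq_norm,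
        ← integral_sub (hint m g) (hint m h)]
      have hb := norm_integral_le_of_norm_le_const (μ := m) (C := ‖g - h‖)
        (f := fun x => g x - h x) (Filter.Eventually.of_forall fun x => by
          have := (g - h).norm_coe_le_norm x
          simpa using this)
      simpa using hb
    exact hL.continuous
  have hgen : ∀ a : Fin (n + 1) → ℤ, ∫ x, UnitAddTorus.mFourier a x ∂m₁ =
      ∫ x, UnitAddTorus.mFourier a x ∂m₂ := by
    intro a
    apply Complex.ext
    · have e1 := integral_re (𝕜 := ℂ) (hint m₁ (UnitAddTorus.mFourier a))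
      have e2 := integral_re (𝕜 := ℂ) (hint m₂ (UnitAddTorus.mFourier a))
      exact e1.symm.trans ((hre a).trans e2)
    · have e1 := integral_im (𝕜 := ℂ) (hint m₁ (UnitAddTorus.mFourier a))
      have e2 := integral_im (𝕜 := ℂ) (hint m₂ (UnitAddTorus.mFourier a))
      exact e1.symm.trans ((him a).trans e2)
  have hspan : ∀ g ∈ Submodule.span ℂ (Set.range (UnitAddTorus.mFourier (d := Fin (n + 1)))),
      ∫ x, g x ∂m₁ = ∫ x, g x ∂m₂ := by
    intro g hg
    induction hg using Submodule.span_induction with
    | mem g hg =>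
      obtain ⟨a, rfl⟩ := hg
      exact hgen a
    | zero => simp
    | add g h _ _ ihg ihh =>
      have e1 := integral_add (hint m₁ g) (hint m₁ h)
      have e2 := integral_add (hint m₂ g) (hint m₂ h)
      simp only [ContinuousMap.add_apply]
      rw [e1, e2, ihg, ihh]
    | smul c g _ ihg =>
      simp only [ContinuousMap.smul_apply]
      rw [integral_smul, integral_smul, ihg]
  have hall : ∀ g : C(X n, ℂ), ∫ x, g x ∂m₁ = ∫ x, g x ∂m₂ := by
    intro g
    have hcl : IsClosed {g : C(X n, ℂ) | ∫ x, g x ∂m₁ = ∫ x, g x ∂m₂} :=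
      isClosed_eq (hcont m₁) (hcont m₂)
    have hmem : g ∈ (Submodule.span ℂ
        (Set.range (UnitAddTorus.mFourier (d := Fin (n + 1))))).topologicalClosure := by
      rw [UnitAddTorus.span_mFourier_closure_eq_top]
      exact Submodule.mem_top
    have hmem' : g ∈ closure ((Submodule.span ℂ
        (Set.range (UnitAddTorus.mFourier (d := Fin (n + 1)))) : Submodule ℂ C(X n, ℂ)) :
          Set C(X n, ℂ)) := by
      rw [← Submodule.topologicalClosure_coe]
      exact hmem
    exact closure_minimal (fun g hg => hspan g hg) hcl hmem'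
  apply ext_of_forall_integral_eq_of_IsFiniteMeasure
  intro f
  have h := hall ⟨fun x => ((f x : ℝ) : ℂ), by
    exact Complex.continuous_ofReal.comp f.continuous⟩
  simp only [ContinuousMap.coe_mk] at h
  rw [integral_complex_ofReal, integral_complex_ofReal] at h
  exact_mod_cast h


end Xfourier

alias measure_ext_fourier := Xfourier.measure_ext_fourier

end Pool.Agent.Helper823.ManeN
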