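import Pool.Agent.Helper823.ManeN.Defs

set_option autoImplicit false
open MeasureTheory Set Topology

namespace Pool.Agent.Helper823.ManeN
namespace Xfsmooth


/-! TARGET: prove this one -/
theorem fourier_smooth {n : ℕ} (k : ℕ) (a : Fin (n + 1) → ℤ) :
    IsCk k (fun x : X n => (UnitAddTorus.mFourier a x).re) ∧
      IsCk k (fun x : X n => (UnitAddTorus.mFourier a x).im) := by
  have h : ContDiff ℝ k (fun y : Fin (n + 1) → ℝ => UnitAddTorus.mFourier a (proj y)) := by
    have h1 : (fun y : Fin (n + 1) → ℝ => UnitAddTorus.mFourier a (proj y)) =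
        fun y : Fin (n + 1) → ℝ =>
          ∏ i, Complex.exp (2 * Real.pi * Complex.I * (a i) * (y i : ℂ)) := by
      funext y
      show (∏ i, fourier (a i) ((y i : ℝ) : UnitAddCircle)) = _
      refine Finset.prod_congr rfl (fun i _ => ?_)
      rw [fourier_coe_apply]
      congr 1
      push_cast
      ring
    rw [h1]
    refine contDiff_prod (fun i _ => ?_)
    refine ContDiff.cexp ?_
    refine contDiff_const.mul ?_
    exact Complex.ofRealCLM.contDiff.comp (contDiff_apply ℝ ℝ i)
  exact ⟨Complex.reCLM.contDiff.comp h, Complex.imCLM.contDiff.comp h⟩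


end Xfsmooth

alias fourier_smooth := Xfsmooth.fourier_smooth

end Pool.Agent.Helper823.ManeN
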