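import Pool.Agent.Helper823.ManeN.Defs
import Pool.Agent.Helper823.ManeN.Xcont_lift

set_option autoImplicit false
open MeasureTheory Set Topology

namespace Pool.Agent.Helper823.ManeN
namespace Xnice







theorem strictConvex_aux {n : ℕ} (g : E n → ℝ) (hg : ContDiff ℝ 2 g)
    (hpos : ∀ v w : E n, w ≠ 0 → 0 < iteratedFDeriv ℝ 2 g v (fun _ => w)) :
    StrictConvexOn ℝ Set.univ g := by
  refine ⟨convex_univ, ?_⟩
  intro v _ w _ hvw a b ha hb hab
  set d : E n := w - v with hd
  have hd0 : d ≠ 0 := by
    intro h
    apply hvw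
    rw [hd, sub_eq_zero] at h
    exact h.symm
  have hg1 : Differentiable ℝ g := hg.differentiable (by norm_num)
  have hg2 : Differentiable ℝ (fderiv ℝ g) := by
    have : ContDiff ℝ 1 (fderiv ℝ g) := hg.fderiv_right (by norm_num)
    exact this.differentiable (by norm_num)
  have hline : ∀ t : ℝ, HasDerivAt (fun t : ℝ => v + t • d) d t := by
    intro t
    have h1 : HasDerivAt (fun t : ℝ => t • d) ((1 : ℝ) • d) t :=
      (hasDerivAt_id t).smul_const d
    rw [one_smul] at h1
    exact h1.const_add v
  have hd1 : ∀ t : ℝ, HasDerivAt (fun t : ℝ => g (v + t • d)) (fderiv ℝ g (v + t • d) d) t := by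
    intro t
    exact (hg1 (v + t • d)).hasFDerivAt.comp_hasDerivAt t (hline t)
  have hder1 : deriv (fun t : ℝ => g (v + t • d)) = fun t => fderiv ℝ g (v + t • d) d := by
    funext t
    exact (hd1 t).deriv
  have hd2 : ∀ t : ℝ, HasDerivAt (fun t : ℝ => fderiv ℝ g (v + t • d) d)
      (fderiv ℝ (fderiv ℝ g) (v + t • d) d d) t := by
    intro t
    have h1 : HasDerivAt (fun t : ℝ => fderiv ℝ g (v + t • d))
        (fderiv ℝ (fderiv ℝ g) (v + t • d) d) t :=
      (hg2 (v + t • d)).hasFDerivAt.comp_hasDerivAt t (hline t)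
    have h2 := h1.clm_apply (hasDerivAt_const t d)
    simpa using h2
  have hstrict : StrictConvexOn ℝ Set.univ (fun t : ℝ => g (v + t • d)) := by
    apply strictConvexOn_of_deriv2_pos' convex_univ
    · exact (continuous_iff_continuousAt.mpr (fun t => (hd1 t).continuousAt)).continuousOn
    · intro t _
      have : deriv^[2] (fun t : ℝ => g (v + t • d)) t =
          fderiv ℝ (fderiv ℝ g) (v + t • d) d d := by
        show deriv (deriv (fun t : ℝ => g (v + t • d))) t = _
        rw [hder1]
        exact (hd2 t).deriv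
      rw [this]
      have h3 := hpos (v + t • d) d hd0
      rwa [iteratedFDeriv_two_apply] at h3
  have h := hstrict.2 (Set.mem_univ (0 : ℝ)) (Set.mem_univ (1 : ℝ)) (by norm_num) ha hb hab
  simp only [smul_eq_mul, mul_zero, mul_one, zero_add, zero_smul, add_zero, one_smul] at h
  have e1 : v + d = w := by rw [hd]; abel
  have e2 : v + b • d = a • v + b • w := by
    have ha' : a = 1 - b := by linarith
    rw [hd, ha', smul_sub, sub_smul, one_smul]
    abel
  rw [e1, e2] at h
  simpa using h

/-! TARGET: prove this one -/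
theorem nice_add {n : ℕ} (k : ℕ) (hk : 2 ≤ k) (L : X n × E n → ℝ) (hL : IsTonelli k L)
    (f : X n → ℝ) (hf : Continuous f) : Nice (fun p => L p + f p.1) := by
  have hLc : Continuous L := continuous_of_lift L hL.smooth.continuous
  obtain ⟨C, hC⟩ := isCompact_univ.exists_bound_of_continuousOn (hf.continuousOn (s := Set.univ))
  have hC' : ∀ x, |f x| ≤ C := fun x => by simpa using hC x (Set.mem_univ x)
  refine ⟨hLc.add (hf.comp continuous_fst), ?_, ?_, ?_⟩
  · obtain ⟨R, hR⟩ := hL.superlinear 0
    obtain ⟨D, hD⟩ := ((isCompact_univ (X := X n)).prod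
      (isCompact_closedBall (0 : E n) R)).exists_bound_of_continuousOn hLc.continuousOn
    refine ⟨-|D| - C, ?_⟩
    rintro ⟨x, v⟩
    have h1 : -|D| ≤ L (x, v) := by
      by_cases hv : R ≤ ‖v‖
      · have := hR x v hv
        rw [zero_mul] at this
        have h0 : 0 ≤ |D| := abs_nonneg D
        linarith
      · have hmem : (x, v) ∈ (Set.univ : Set (X n)) ×ˢ Metric.closedBall (0 : E n) R := by
          refine ⟨Set.mem_univ _, ?_⟩
          simp only [Metric.mem_closedBall, dist_zero_right]
          exact (not_le.mp hv).le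
        have h2 := hD (x, v) hmem
        rw [Real.norm_eq_abs] at h2
        have h3 := neg_abs_le (L (x, v))
        have h4 := le_abs_self D
        linarith
    have h5 := hC' x
    have h6 := neg_abs_le (f x)
    show -|D| - C ≤ L (x, v) + f x
    linarith
  · intro x
    have hex : ∀ i, ∃ y : ℝ, (y : UnitAddCircle) = x i := fun i =>
      QuotientAddGroup.mk_surjective (x i)
    choose y hy using hex
    have hyx : proj y = x := by
      funext i
      exact hy i
    have hg : ContDiff ℝ 2 (fun u : E n => L (x, u)) := by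
      have h1 : ContDiff ℝ 2 (fun z : (Fin (n + 1) → ℝ) × E n => L (proj z.1, z.2)) :=
        hL.smooth.of_le (by exact_mod_cast hk)
      have h2 : ContDiff ℝ 2 (fun u : E n => ((y, u) : (Fin (n + 1) → ℝ) × E n)) :=
        contDiff_const.prodMk contDiff_id
      have h3 := h1.comp h2
      have h4 : ((fun z : (Fin (n + 1) → ℝ) × E n => L (proj z.1, z.2)) ∘
          (fun u : E n => ((y, u) : (Fin (n + 1) → ℝ) × E n))) = fun u : E n => L (x, u) := by
        funext u
        simp only [Function.comp, hyx]
      rwa [h4] at h3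
    have hs := strictConvex_aux (fun u : E n => L (x, u)) hg (fun v w hw => hL.convex x v w hw)
    exact hs.add_convexOn (convexOn_const (f x) convex_univ)
  · intro A
    obtain ⟨R, hR⟩ := hL.superlinear (A + 1)
    refine ⟨max R C, ?_⟩
    intro x v hv
    have h1 := hR x v (le_trans (le_max_left _ _) hv)
    have h2 : C ≤ ‖v‖ := le_trans (le_max_right _ _) hv
    have h3 := hC' x
    have h4 := neg_abs_le (f x)
    show A * ‖v‖ ≤ L (x, v) + f x
    nlinarith


end Xnice

alias nice_add := Xnice.nice_add

end Pool.Agent.Helper823.ManeN
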