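import Pool.Agent.Helper823.ManeN.Defs
import Pool.Agent.Helper823.ManeN.Xexadm

set_option autoImplicit false
open MeasureTheory Set Topology

namespace Pool.Agent.Helper823.ManeN
namespace Xblip





/-! TARGET: prove this one -/
theorem beta_lip_int {n : ℕ} (f : X n → ℝ) (hf : Continuous f) (μ : Measure (X n × E n))
    [IsProbabilityMeasure μ] : Integrable (fun p : X n × E n => f p.1) μ := by
  obtain ⟨C, hC⟩ := (isCompact_univ (X := X n)).exists_bound_of_continuousOn hf.continuousOn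
  exact Integrable.of_bound ((hf.measurable.comp measurable_fst).aestronglyMeasurable) C
    (Filter.Eventually.of_forall fun p => hC p.1 (mem_univ _))

theorem beta_lip_bdd {n : ℕ} (L : X n × E n → ℝ) (hL : Nice L) (f : X n → ℝ) (hf : Continuous f) (h : E n) :
    BddBelow {a : ℝ | ∃ μ : Measure (X n × E n), Adm L h μ ∧ a = ∫ p, (L p + f p.1) ∂μ} := by
  obtain ⟨C, hC⟩ := (isCompact_univ (X := X n)).exists_bound_of_continuousOn hf.continuousOn
  obtain ⟨B, hB⟩ := hL.bdd
  refine ⟨B - C, ?_⟩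
  rintro _ ⟨μ, hμ, rfl⟩
  have := hμ.1.prob
  have h1 : ∫ _p : X n × E n, (B - C) ∂μ ≤ ∫ p, (L p + f p.1) ∂μ := by
    apply integral_mono (integrable_const _) (hμ.2.1.add (beta_lip_int f hf μ))
    intro p
    have h2 := (abs_le.1 (hC p.1 (mem_univ _))).1
    have h3 := hB p
    change B - C ≤ L p + f p.1
    linarith
  simpa using h1

theorem beta_lip_half {n : ℕ} (L : X n × E n → ℝ) (hL : Nice L) (f f' : X n → ℝ) (hf : Continuous f)
    (hf' : Continuous f') (ε : ℝ) (h : E n) (hε : ∀ x, |f x - f' x| ≤ ε) :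
    beta L f h - ε ≤ beta L f' h := by
  unfold beta
  obtain ⟨μ0, hμ0⟩ := exists_adm L hL.cont h
  refine le_csInf ⟨∫ p, (L p + f' p.1) ∂μ0, μ0, hμ0, rfl⟩ ?_
  rintro _ ⟨μ, hμ, rfl⟩
  have := hμ.1.prob
  have h1 : sInf {a : ℝ | ∃ μ : Measure (X n × E n), Adm L h μ ∧ a = ∫ p, (L p + f p.1) ∂μ} ≤
      ∫ p, (L p + f p.1) ∂μ := csInf_le (beta_lip_bdd L hL f hf h) ⟨μ, hμ, rfl⟩
  have h2 : ∫ p, (L p + f p.1) ∂μ ≤ ∫ p, ((L p + f' p.1) + ε) ∂μ := by
    apply integral_mono (hμ.2.1.add (beta_lip_int f hf μ))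
      ((hμ.2.1.add (beta_lip_int f' hf' μ)).add (integrable_const _))
    intro p
    have h3 := (abs_le.1 (hε p.1)).2
    change L p + f p.1 ≤ L p + f' p.1 + ε
    linarith
  have h4 : ∫ p, ((L p + f' p.1) + ε) ∂μ = ∫ p, (L p + f' p.1) ∂μ + ε := by
    have h5 : Integrable (fun p : X n × E n => L p + f' p.1) μ :=
      hμ.2.1.add (beta_lip_int f' hf' μ)
    rw [integral_add h5 (integrable_const _)]
    simp
  linarith

theorem beta_lip {n : ℕ} (L : X n × E n → ℝ) (hL : Nice L) (f f' : X n → ℝ)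
    (hf : Continuous f) (hf' : Continuous f') (ε : ℝ) (h : E n) (hε : ∀ x, |f x - f' x| ≤ ε) :
    |beta L f h - beta L f' h| ≤ ε := by
  have h1 := beta_lip_half L hL f f' hf hf' ε h hε
  have h2 := beta_lip_half L hL f' f hf' hf ε h (fun x => by rw [abs_sub_comm]; exact hε x)
  rw [abs_le]
  constructor <;> linarith



end Xblip

alias beta_lip := Xblip.beta_lip

end Pool.Agent.Helper823.ManeN
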