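import Pool.Agent.Helper823.ManeN.Defs

set_option autoImplicit false
open MeasureTheory Set Topology

namespace Pool.Agent.Helper823.ManeN
namespace Xrcover

theorem small_cover_image {α : Type*} [DecidableEq α] (s : Finset ℕ) (g : ℕ → α) (w : α → ℝ)
    (hw : ∀ a, 0 ≤ w a) : ∑ b ∈ s.image g, w b ≤ ∑ i ∈ s, w (g i) := by
  induction s using Finset.induction_on with
  | empty => simp
  | insert a s ha ih =>
    rw [Finset.image_insert, Finset.sum_insert ha]
    by_cases h : g a ∈ s.image g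
    · rw [Finset.insert_eq_of_mem h]
      linarith [hw (g a)]
    · rw [Finset.sum_insert h]
      linarith

theorem small_cover_pow (m : ℕ) (a δ : ℝ) (hδ : 0 < δ) :
    ∃ ε : ℝ, 0 < ε ∧ (a + ε) ^ m < a ^ m + δ := by
  have hc : Filter.Tendsto (fun ε : ℝ => (a + ε) ^ m) (𝓝 0) (𝓝 (a ^ m)) := by
    have h1 : Continuous (fun ε : ℝ => (a + ε) ^ m) := by fun_prop
    have h2 := h1.tendsto 0
    simpa using h2
  have h3 : ∀ᶠ ε in 𝓝 (0 : ℝ), (a + ε) ^ m < a ^ m + δ :=
    hc.eventually (gt_mem_nhds (by linarith))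
  rw [Metric.eventually_nhds_iff] at h3
  obtain ⟨e, he, h4⟩ := h3
  refine ⟨e / 2, by linarith, h4 ?_⟩
  rw [Real.dist_eq, sub_zero, abs_of_pos (by linarith)]
  linarith

theorem small_cover_ediam {n : ℕ} (c : EuclideanSpace ℝ (Fin n)) (r : ℝ) :
    Metric.ediam (Metric.ball c r) ≤ ENNReal.ofReal (2 * r) := by
  refine Metric.ediam_le fun x hx y hy => ?_
  rw [edist_dist]
  apply ENNReal.ofReal_le_ofReal
  have h1 := dist_triangle x c y
  rw [dist_comm c y] at h1
  have h2 : dist x c < r := hx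
  have h3 : dist y c < r := hy
  linarith

/-! TARGET: prove this one -/
/-- compact sets of zero `(n-2)`-dimensional Hausdorff measure have small finite coverings -/
theorem small_cover {n : ℕ} (hn : 2 ≤ n) (K : Set (EuclideanSpace ℝ (Fin n))) (hK : IsCompact K)
    (h0 : μH[(n : ℝ) - 2] K = 0) (η : ℝ) (hη : 0 < η) :
    ∃ F : Finset (EuclideanSpace ℝ (Fin n) × ℝ), (∀ b ∈ F, 0 < b.2) ∧
      ∑ b ∈ F, b.2 ^ (n - 2) < η ∧ ∀ x ∈ K, ∃ b ∈ F, ‖x - b.1‖ < b.2 := by
  classical
  rcases Nat.eq_or_lt_of_le hn with h2 | h3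
  · -- `n = 2`
    have hK0 : K = ∅ := by
      by_contra hne
      obtain ⟨x, hx⟩ := Set.nonempty_iff_ne_empty.mpr hne
      have h1 : μH[(n : ℝ) - 2] ({x} : Set (EuclideanSpace ℝ (Fin n))) ≤ μH[(n : ℝ) - 2] K :=
        measure_mono (Set.singleton_subset_iff.mpr hx)
      have h4 : (n : ℝ) - 2 = 0 := by rw [← h2]; norm_num
      rw [h0, h4, Measure.hausdorffMeasure_zero_singleton] at h1
      simp at h1
    refine ⟨∅, by simp, by simpa using hη, ?_⟩
    rw [hK0]
    intro x hx
    exact absurd hx (Set.notMem_empty x)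
  · obtain ⟨m, hm, hnm⟩ : ∃ m : ℕ, 1 ≤ m ∧ n = m + 2 := ⟨n - 2, by omega, by omega⟩
    have hnm' : n - 2 = m := by omega
    have hreal : (n : ℝ) - 2 = (m : ℝ) := by rw [hnm]; push_cast; ring
    rw [hnm']
    rw [hreal, Measure.hausdorffMeasure_apply] at h0
    have h1 : (⨅ (t : ℕ → Set (EuclideanSpace ℝ (Fin n))) (_ : K ⊆ ⋃ n, t n)
        (_ : ∀ n, Metric.ediam (t n) ≤ 1),
          ∑' n, ⨆ _ : (t n).Nonempty, Metric.ediam (t n) ^ (m : ℝ)) < ENNReal.ofReal (η / 2) := by
      have h2 := le_iSup₂ (f := fun (r : ENNReal) (_ : 0 < r) =>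
        ⨅ (t : ℕ → Set (EuclideanSpace ℝ (Fin n))) (_ : K ⊆ ⋃ n, t n)
        (_ : ∀ n, Metric.ediam (t n) ≤ r),
          ∑' n, ⨆ _ : (t n).Nonempty, Metric.ediam (t n) ^ (m : ℝ)) (1 : ENNReal) one_pos
      rw [h0] at h2
      refine lt_of_le_of_lt h2 ?_
      exact ENNReal.ofReal_pos.mpr (by linarith)
    simp only [iInf_lt_iff] at h1
    obtain ⟨t, hKt, hd, hsum⟩ := h1
    -- centres and radii
    have hc : ∀ i, ∃ c : EuclideanSpace ℝ (Fin n), (t i).Nonempty → c ∈ t i := by
      intro i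
      by_cases h : (t i).Nonempty
      · obtain ⟨c, hc⟩ := h
        exact ⟨c, fun _ => hc⟩
      · exact ⟨0, fun h' => absurd h' h⟩
    choose c hc using hc
    let a : ℕ → ℝ := fun i => if (t i).Nonempty then (Metric.ediam (t i)).toReal else 0
    have ha0 : ∀ i, 0 ≤ a i := by
      intro i
      by_cases h : (t i).Nonempty
      · simp only [a, if_pos h]; exact ENNReal.toReal_nonneg
      · simp only [a, if_neg h]; exact le_rfl
    have hε : ∀ i : ℕ, ∃ ε : ℝ, 0 < ε ∧ (a i + ε) ^ m < a i ^ m + (η / 2) * (1 / 2) ^ (i + 1) :=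
      fun i => small_cover_pow m (a i) _ (by positivity)
    choose ε hε0 hε using hε
    have hcov : K ⊆ ⋃ i, Metric.ball (c i) (a i + ε i) := by
      intro x hx
      obtain ⟨i, hi⟩ := Set.mem_iUnion.mp (hKt hx)
      refine Set.mem_iUnion.mpr ⟨i, ?_⟩
      have hne : (t i).Nonempty := ⟨x, hi⟩
      have hdi : Metric.ediam (t i) ≠ ⊤ := ne_top_of_le_ne_top ENNReal.one_ne_top (hd i)
      have h5 : edist x (c i) ≤ Metric.ediam (t i) := Metric.edist_le_ediam_of_mem hi (hc i hne)
      have h6 : dist x (c i) ≤ (Metric.ediam (t i)).toReal := by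
        rw [dist_edist]
        exact ENNReal.toReal_mono hdi h5
      have h7 : a i = (Metric.ediam (t i)).toReal := if_pos hne
      rw [Metric.mem_ball, h7]
      linarith [hε0 i]
    obtain ⟨s, hs⟩ := hK.elim_finite_subcover _ (fun i => Metric.isOpen_ball) hcov
    have hterm : ∀ i, ENNReal.ofReal (a i ^ m) ≤
        ⨆ _ : (t i).Nonempty, Metric.ediam (t i) ^ (m : ℝ) := by
      intro i
      by_cases h : (t i).Nonempty
      · have h7 : a i = (Metric.ediam (t i)).toReal := if_pos h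
        have hdi : Metric.ediam (t i) ≠ ⊤ := ne_top_of_le_ne_top ENNReal.one_ne_top (hd i)
        rw [h7, ENNReal.ofReal_pow ENNReal.toReal_nonneg, ENNReal.ofReal_toReal hdi,
          ENNReal.rpow_natCast]
        exact le_iSup (fun _ : (t i).Nonempty => Metric.ediam (t i) ^ m) h
      · have h7 : a i = 0 := if_neg h
        rw [h7, zero_pow (by omega)]
        simp
    have hfin : ∑ i ∈ s, a i ^ m < η / 2 := by
      have h8 : ENNReal.ofReal (∑ i ∈ s, a i ^ m) < ENNReal.ofReal (η / 2) := by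
        rw [ENNReal.ofReal_sum_of_nonneg (fun i _ => pow_nonneg (ha0 i) m)]
        calc ∑ i ∈ s, ENNReal.ofReal (a i ^ m)
            ≤ ∑ i ∈ s, ⨆ _ : (t i).Nonempty, Metric.ediam (t i) ^ (m : ℝ) :=
              Finset.sum_le_sum fun i _ => hterm i
          _ ≤ ∑' i, ⨆ _ : (t i).Nonempty, Metric.ediam (t i) ^ (m : ℝ) :=
              ENNReal.sum_le_tsum s
          _ < _ := hsum
      exact (ENNReal.ofReal_lt_ofReal_iff (by linarith)).mp h8
    have hgeo : ∑ i ∈ s, (η / 2) * (1 / 2 : ℝ) ^ (i + 1) ≤ η / 2 := by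
      rw [← Finset.mul_sum]
      have h9 : ∑ i ∈ s, (1 / 2 : ℝ) ^ (i + 1) ≤ 1 := by
        have h10 : HasSum (fun i : ℕ => (1 / 2 : ℝ) ^ (i + 1)) 1 := by
          have h11 := (hasSum_geometric_two).mul_left (1 / 2 : ℝ)
          have h12 : (fun i : ℕ => (1 / 2 : ℝ) * (1 / 2) ^ i) = fun i : ℕ => (1 / 2 : ℝ) ^ (i + 1) := by
            funext i; ring
          rw [h12] at h11
          have e12 : (1 / 2 : ℝ) * 2 = 1 := by norm_num
          rw [e12] at h11
          exact h11
        exact sum_le_hasSum s (fun i _ => by positivity) h10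
      nlinarith
    refine ⟨s.image (fun i => (c i, a i + ε i)), ?_, ?_, ?_⟩
    · intro b hb
      obtain ⟨i, -, rfl⟩ := Finset.mem_image.mp hb
      have := ha0 i
      have := hε0 i
      show 0 < a i + ε i
      linarith
    · have h13 : ∑ b ∈ s.image (fun i => (c i, a i + ε i)), |b.2 ^ m| ≤
          ∑ i ∈ s, |(a i + ε i) ^ m| :=
        small_cover_image s (fun i => (c i, a i + ε i)) (fun b => |b.2 ^ m|)
          (fun b => abs_nonneg _)
      have h14 : ∑ b ∈ s.image (fun i => (c i, a i + ε i)), b.2 ^ m ≤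
          ∑ b ∈ s.image (fun i => (c i, a i + ε i)), |b.2 ^ m| :=
        Finset.sum_le_sum fun b _ => le_abs_self _
      have h15 : ∑ i ∈ s, |(a i + ε i) ^ m| = ∑ i ∈ s, (a i + ε i) ^ m := by
        refine Finset.sum_congr rfl fun i _ => abs_of_nonneg ?_
        exact pow_nonneg (add_nonneg (ha0 i) (hε0 i).le) m
      have h16 : ∑ i ∈ s, (a i + ε i) ^ m ≤
          ∑ i ∈ s, (a i ^ m + (η / 2) * (1 / 2) ^ (i + 1)) :=
        Finset.sum_le_sum fun i _ => (hε i).le
      rw [Finset.sum_add_distrib] at h16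
      linarith
    · intro x hx
      obtain ⟨i, hi, hxi⟩ := Set.mem_iUnion₂.mp (hs hx)
      refine ⟨(c i, a i + ε i), Finset.mem_image_of_mem _ hi, ?_⟩
      rw [Metric.mem_ball, dist_eq_norm] at hxi
      exact hxi

/-- conversely -/
theorem null_of_small_cover {n : ℕ} (hn : 2 ≤ n) (S : Set (EuclideanSpace ℝ (Fin n)))
    (h : ∀ j : ℕ, ∃ F : Finset (EuclideanSpace ℝ (Fin n) × ℝ), (∀ b ∈ F, 0 < b.2) ∧
      ∑ b ∈ F, b.2 ^ (n - 2) < 1 / ((j : ℝ) + 1) ∧ ∀ x ∈ S, ∃ b ∈ F, ‖x - b.1‖ < b.2) :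
    μH[(n : ℝ) - 2] S = 0 := by
  classical
  rcases Nat.eq_or_lt_of_le hn with h2 | h3
  · obtain ⟨F, hF, hsum, hcov⟩ := h 0
    have hS : S = ∅ := by
      have hm : n - 2 = 0 := by omega
      rw [hm] at hsum
      simp only [pow_zero, Finset.sum_const, nsmul_eq_mul, mul_one, Nat.cast_zero, zero_add,
        div_one] at hsum
      have hc : F.card = 0 := by
        have : F.card < 1 := by exact_mod_cast hsum
        omega
      rw [Finset.card_eq_zero] at hc
      rw [Set.eq_empty_iff_forall_notMem]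
      intro x hx
      obtain ⟨b, hb, -⟩ := hcov x hx
      rw [hc] at hb
      exact absurd hb (Finset.notMem_empty b)
    rw [hS, measure_empty]
  · obtain ⟨m, hm, hnm⟩ : ∃ m : ℕ, 1 ≤ m ∧ n = m + 2 := ⟨n - 2, by omega, by omega⟩
    have hnm' : n - 2 = m := by omega
    have hreal : (n : ℝ) - 2 = (m : ℝ) := by rw [hnm]; push_cast; ring
    rw [hnm'] at h
    rw [hreal]
    choose F hF hsum hcov using h
    have hmR : (0:ℝ) < (m : ℝ) := by exact_mod_cast hm
    have hlim0 : Filter.Tendsto (fun j : ℕ => 1 / ((j : ℝ) + 1)) Filter.atTop (𝓝 0) :=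
      tendsto_one_div_add_atTop_nhds_zero_nat
    have hr : Filter.Tendsto (fun j : ℕ => ENNReal.ofReal (2 * (1 / ((j : ℝ) + 1)) ^ (1 / (m : ℝ))))
        Filter.atTop (𝓝 0) := by
      have h4 : Filter.Tendsto (fun j : ℕ => 2 * (1 / ((j : ℝ) + 1)) ^ (1 / (m : ℝ)))
          Filter.atTop (𝓝 0) := by
        have h5 := (hlim0.rpow_const (p := 1 / (m : ℝ)) (Or.inr (by positivity))).const_mul 2
        rw [Real.zero_rpow (by positivity), mul_zero] at h5
        exact h5
      have h6 := ENNReal.tendsto_ofReal h4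
      rw [ENNReal.ofReal_zero] at h6
      exact h6
    have hrad : ∀ j, ∀ b ∈ F j, b.2 ≤ (1 / ((j : ℝ) + 1)) ^ (1 / (m : ℝ)) := by
      intro j b hb
      have h7 : b.2 ^ m ≤ 1 / ((j : ℝ) + 1) := by
        have h8 : b.2 ^ m ≤ ∑ b ∈ F j, b.2 ^ m :=
          Finset.single_le_sum (f := fun b : EuclideanSpace ℝ (Fin n) × ℝ => b.2 ^ m)
            (fun b hb => pow_nonneg (hF j b hb).le m) hb
        exact h8.trans (hsum j).le
      have h9 : b.2 = (b.2 ^ m) ^ (1 / (m : ℝ)) := by
        rw [one_div, Real.pow_rpow_inv_natCast (hF j b hb).le (by omega)]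
      rw [h9]
      exact Real.rpow_le_rpow (pow_nonneg (hF j b hb).le m) h7 (by positivity)
    have hmain := Measure.hausdorffMeasure_le_liminf_sum (ι := fun j : ℕ => {b // b ∈ F j})
      (m : ℝ) S (l := Filter.atTop)
      (fun j : ℕ => ENNReal.ofReal (2 * (1 / ((j : ℝ) + 1)) ^ (1 / (m : ℝ)))) hr
      (fun j b => Metric.ball b.1.1 b.1.2)
      (Filter.Eventually.of_forall fun j b => (small_cover_ediam b.1.1 b.1.2).trans
        (ENNReal.ofReal_le_ofReal (by have := hrad j b.1 b.2; linarith)))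
      (Filter.Eventually.of_forall fun j x hx => by
        obtain ⟨b, hb, hxb⟩ := hcov j x hx
        refine Set.mem_iUnion.mpr ⟨⟨b, hb⟩, ?_⟩
        rw [Metric.mem_ball, dist_eq_norm]
        exact hxb)
    have hbound : ∀ j : ℕ, ∑ b : {b // b ∈ F j},
        Metric.ediam (Metric.ball b.1.1 b.1.2) ^ (m : ℝ) ≤
        ENNReal.ofReal (2 ^ m * (1 / ((j : ℝ) + 1))) := by
      intro j
      calc ∑ b : {b // b ∈ F j}, Metric.ediam (Metric.ball b.1.1 b.1.2) ^ (m : ℝ)
          ≤ ∑ b : {b // b ∈ F j}, ENNReal.ofReal ((2 * b.1.2) ^ m) := by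
            refine Finset.sum_le_sum fun b _ => ?_
            rw [ENNReal.rpow_natCast, ENNReal.ofReal_pow (by have := hF j b.1 b.2; linarith)]
            exact pow_le_pow_left' (small_cover_ediam _ _) m
        _ = ENNReal.ofReal (∑ b : {b // b ∈ F j}, (2 * b.1.2) ^ m) :=
            (ENNReal.ofReal_sum_of_nonneg (fun b _ =>
              pow_nonneg (by have := hF j b.1 b.2; linarith) m)).symm
        _ ≤ _ := by
            apply ENNReal.ofReal_le_ofReal
            have h10 : ∑ b : {b // b ∈ F j}, (2 * b.1.2) ^ m = ∑ b ∈ F j, (2 * b.2) ^ m :=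
              Finset.sum_coe_sort (F j) (fun b => (2 * b.2) ^ m)
            rw [h10]
            have h11 : ∑ b ∈ F j, (2 * b.2) ^ m = 2 ^ m * ∑ b ∈ F j, b.2 ^ m := by
              rw [Finset.mul_sum]
              exact Finset.sum_congr rfl fun b _ => mul_pow _ _ _
            rw [h11]
            exact mul_le_mul_of_nonneg_left (hsum j).le (by positivity)
    have hlim : Filter.Tendsto (fun j : ℕ => ENNReal.ofReal (2 ^ m * (1 / ((j : ℝ) + 1))))
        Filter.atTop (𝓝 0) := by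
      have h12 := hlim0.const_mul (2 ^ m : ℝ)
      rw [mul_zero] at h12
      have h13 := ENNReal.tendsto_ofReal h12
      rw [ENNReal.ofReal_zero] at h13
      exact h13
    have hle : Filter.liminf (fun j : ℕ => ∑ b : {b // b ∈ F j},
        Metric.ediam (Metric.ball b.1.1 b.1.2) ^ (m : ℝ)) Filter.atTop ≤ 0 := by
      calc _ ≤ Filter.liminf (fun j : ℕ => ENNReal.ofReal (2 ^ m * (1 / ((j : ℝ) + 1))))
            Filter.atTop :=
            Filter.liminf_le_liminf (Filter.Eventually.of_forall hbound)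
        _ = 0 := hlim.liminf_eq
    exact nonpos_iff_eq_zero.mp (hmain.trans hle)


end Xrcover

alias small_cover := Xrcover.small_cover
alias null_of_small_cover := Xrcover.null_of_small_cover

end Pool.Agent.Helper823.ManeN
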