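import Pool.Agent.Helper823.ManeN.Defs

set_option autoImplicit false
open MeasureTheory Set Topology

namespace Pool.Agent.Helper823.ManeN
namespace Xrchain



theorem chain_bound_same {n : ℕ} {z' : Fin n → ℤ} {η : ℝ} (hη : 0 < η) {x y : Fin n → ℝ}
    (hx : x ∈ Cube z' η) (hy : y ∈ Cube z' η) : ‖x - y‖ ≤ η := by
  rw [pi_norm_le_iff_of_nonneg hη.le]
  intro i
  rw [Pi.sub_apply, Real.norm_eq_abs, abs_le]
  have h1 := hx i
  have h2 := hy i
  constructor <;> nlinarith [h1.1, h1.2, h2.1, h2.2]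

theorem chain_bound_adj {n : ℕ} {z' z'' : Fin n → ℤ} {η : ℝ} (hη : 0 < η)
    (hz : ∀ i, z' i - z'' i ≤ 1 ∧ z'' i - z' i ≤ 1) {x y : Fin n → ℝ}
    (hx : x ∈ Cube z' η) (hy : y ∈ Cube z'' η) : ‖x - y‖ ≤ 2 * η := by
  rw [pi_norm_le_iff_of_nonneg (by positivity)]
  intro i
  rw [Pi.sub_apply, Real.norm_eq_abs, abs_le]
  have h1 := hx i
  have h2 := hy i
  have h3 : (z' i : ℝ) - z'' i ≤ 1 := by exact_mod_cast (hz i).1
  have h4 : (z'' i : ℝ) - z' i ≤ 1 := by exact_mod_cast (hz i).2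
  constructor <;> nlinarith [h1.1, h1.2, h2.1, h2.2, mul_le_mul_of_nonneg_right h3 hη.le,
    mul_le_mul_of_nonneg_right h4 hη.le]

theorem chain_bound_path {n : ℕ} (W : Set (Fin n → ℝ)) (σ : (Fin n → ℝ) → ℝ) (C : ℝ) (hC : 0 ≤ C)
    (hσ : ∀ w ∈ W, ∀ w' ∈ W, |σ w - σ w'| ≤ C * ‖w - w'‖ ^ 2)
    (η : ℝ) (hη : 0 < η) (lo hi : Fin n → ℤ) (p : (Fin n → ℤ) → (Fin n → ℝ))
    (hp : ∀ z' : Fin n → ℤ, (∀ i, lo i ≤ z' i ∧ z' i < hi i) → p z' ∈ W ∧ p z' ∈ Cube z' η) :
    ∀ N : ℕ, ∀ z' z'' : Fin n → ℤ, (∀ i, lo i ≤ z' i ∧ z' i < hi i) →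
      (∀ i, lo i ≤ z'' i ∧ z'' i < hi i) → ∑ i, (z' i - z'' i).natAbs = N →
      |σ (p z') - σ (p z'')| ≤ N * (C * (2 * η) ^ 2) := by
  intro N
  induction N with
  | zero =>
    intro z' z'' h1 h2 h
    have : z' = z'' := by
      funext i
      have := (Finset.sum_eq_zero_iff.1 h) i (Finset.mem_univ i)
      omega
    rw [this]
    simp
  | succ N ih =>
    intro z' z'' h1 h2 h
    have hex : ∃ i, z' i ≠ z'' i := by
      by_contra hcon
      push Not at hcon
      have : ∑ i, (z' i - z'' i).natAbs = 0 := by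
        refine Finset.sum_eq_zero fun i _ => ?_
        rw [hcon i]
        simp
      omega
    obtain ⟨i, hi'⟩ := hex
    obtain ⟨t, ht1, ht2, ht3⟩ : ∃ t : ℤ, (lo i ≤ t ∧ t < hi i) ∧
        (z' i - t ≤ 1 ∧ t - z' i ≤ 1) ∧ (t - z'' i).natAbs + 1 = (z' i - z'' i).natAbs := by
      rcases lt_or_gt_of_ne hi' with hlt | hgt
      · refine ⟨z' i + 1, ⟨?_, ?_⟩, ⟨?_, ?_⟩, ?_⟩
        · have := (h1 i).1; omega
        · have := (h2 i).2; omega
        · omega
        · omega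
        · omega
      · refine ⟨z' i - 1, ⟨?_, ?_⟩, ⟨?_, ?_⟩, ?_⟩
        · have := (h2 i).1; omega
        · have := (h1 i).2; omega
        · omega
        · omega
        · omega
    set y : Fin n → ℤ := Function.update z' i t with hy
    have hyi : y i = t := by rw [hy, Function.update_self]
    have hyj : ∀ j, j ≠ i → y j = z' j := fun j hj => by rw [hy, Function.update_of_ne hj]
    have hyS : ∀ j, lo j ≤ y j ∧ y j < hi j := by
      intro j
      by_cases hj : j = i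
      · subst hj
        rw [hyi]
        exact ht1
      · rw [hyj j hj]
        exact h1 j
    have hsum : ∑ j, (y j - z'' j).natAbs = N := by
      have e1 := Finset.add_sum_erase Finset.univ (fun j => (y j - z'' j).natAbs)
        (Finset.mem_univ i)
      have e2 := Finset.add_sum_erase Finset.univ (fun j => (z' j - z'' j).natAbs)
        (Finset.mem_univ i)
      have e3 : ∑ j ∈ Finset.univ.erase i, (y j - z'' j).natAbs =
          ∑ j ∈ Finset.univ.erase i, (z' j - z'' j).natAbs := by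
        refine Finset.sum_congr rfl fun j hj => ?_
        rw [hyj j (Finset.ne_of_mem_erase hj)]
      rw [hyi] at e1
      omega
    have hih := ih y z'' hyS h2 hsum
    have hadj : ∀ j, z' j - y j ≤ 1 ∧ y j - z' j ≤ 1 := by
      intro j
      by_cases hj : j = i
      · subst hj
        rw [hyi]
        exact ht2
      · rw [hyj j hj]
        omega
    have hstep : |σ (p z') - σ (p y)| ≤ C * (2 * η) ^ 2 := by
      refine (hσ _ (hp z' h1).1 _ (hp y hyS).1).trans ?_
      refine mul_le_mul_of_nonneg_left ?_ hC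
      exact pow_le_pow_left₀ (norm_nonneg _)
        (chain_bound_adj hη hadj (hp z' h1).2 (hp y hyS).2) 2
    have htri := abs_sub_le (σ (p z')) (σ (p y)) (σ (p z''))
    push_cast
    linarith

/-! TARGET: prove this one -/
/-- chain through the `m ^ n` subcubes of a full cube -/
theorem chain_bound {n : ℕ} (W : Set (Fin n → ℝ)) (σ : (Fin n → ℝ) → ℝ) (C : ℝ) (hC : 0 ≤ C)
    (hσ : ∀ w ∈ W, ∀ w' ∈ W, |σ w - σ w'| ≤ C * ‖w - w'‖ ^ 2)
    (δ : ℝ) (hδ : 0 < δ) (m : ℕ) (hm : 0 < m) (z : Fin n → ℤ)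
    (hfull : ∀ z' : Fin n → ℤ, (∀ i, m * z i ≤ z' i ∧ z' i < m * (z i + 1)) →
      ∃ w ∈ W, w ∈ Cube z' (δ / m))
    (w w' : Fin n → ℝ) (hw : w ∈ W) (hw' : w' ∈ W) (h : w ∈ Cube z δ) (h' : w' ∈ Cube z δ) :
    |σ w - σ w'| ≤ (4 * n + 2) * C * δ ^ 2 / m := by
  classical
  have hm' : (0 : ℝ) < m := by exact_mod_cast hm
  have hm1 : (1 : ℝ) ≤ m := by exact_mod_cast hm
  set η : ℝ := δ / m with hηdef
  have hη : 0 < η := div_pos hδ hm'
  have hδη : δ = m * η := by
    rw [hηdef]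
    field_simp
  choose! p hp using hfull
  have hp' : ∀ z' : Fin n → ℤ, (∀ i, m * z i ≤ z' i ∧ z' i < m * (z i + 1)) →
      p z' ∈ W ∧ p z' ∈ Cube z' η := fun z' hz' => hp z' hz'
  have hend : ∀ w ∈ W, w ∈ Cube z δ → ∃ z' : Fin n → ℤ,
      (∀ i, m * z i ≤ z' i ∧ z' i < m * (z i + 1)) ∧ |σ w - σ (p z')| ≤ C * η ^ 2 := by
    intro w hw h
    have hS : ∀ i, m * z i ≤ ⌊w i / η⌋ ∧ ⌊w i / η⌋ < m * (z i + 1) := by
      intro i
      obtain ⟨h1, h2⟩ := h i
      constructor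
      · rw [Int.le_floor]
        rw [le_div_iff₀ hη]
        push_cast
        rw [hδη] at h1
        linarith
      · rw [Int.floor_lt]
        rw [div_lt_iff₀ hη]
        push_cast
        rw [hδη] at h2
        linarith
    have hwc : w ∈ Cube (fun i => ⌊w i / η⌋) η := by
      intro i
      constructor
      · have := Int.floor_le (w i / η)
        rw [le_div_iff₀ hη] at this
        exact this
      · have := Int.lt_floor_add_one (w i / η)
        rw [div_lt_iff₀ hη] at this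
        exact this
    refine ⟨fun i => ⌊w i / η⌋, hS, ?_⟩
    refine (hσ _ hw _ (hp' _ hS).1).trans ?_
    refine mul_le_mul_of_nonneg_left ?_ hC
    exact pow_le_pow_left₀ (norm_nonneg _) (chain_bound_same hη hwc (hp' _ hS).2) 2
  obtain ⟨z1, hz1, he1⟩ := hend w hw h
  obtain ⟨z2, hz2, he2⟩ := hend w' hw' h'
  have hpath := chain_bound_path W σ C hC hσ η hη (fun i => m * z i) (fun i => m * (z i + 1)) p
    hp' (∑ i, (z1 i - z2 i).natAbs) z1 z2 hz1 hz2 rfl
  have hN : ((∑ i, (z1 i - z2 i).natAbs : ℕ) : ℝ) ≤ n * m := by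
    have : (∑ i, (z1 i - z2 i).natAbs : ℕ) ≤ n * m := by
      calc (∑ i, (z1 i - z2 i).natAbs : ℕ) ≤ ∑ _i : Fin n, m := by
            refine Finset.sum_le_sum fun i _ => ?_
            obtain ⟨a1, a2⟩ := hz1 i
            obtain ⟨b1, b2⟩ := hz2 i
            have e : (m : ℤ) * (z i + 1) = m * z i + m := by ring
            rw [e] at a2 b2
            omega
        _ = n * m := by
            rw [Finset.sum_const, Finset.card_univ, Fintype.card_fin, smul_eq_mul]
    exact_mod_cast this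
  have hK : 0 ≤ C * (2 * η) ^ 2 := by positivity
  have hpath' : |σ (p z1) - σ (p z2)| ≤ n * m * (C * (2 * η) ^ 2) :=
    hpath.trans (mul_le_mul_of_nonneg_right hN hK)
  have htri1 := abs_sub_le (σ w) (σ (p z1)) (σ w')
  have htri2 := abs_sub_le (σ (p z1)) (σ (p z2)) (σ w')
  rw [abs_sub_comm (σ w')] at he2
  have htot : |σ w - σ w'| ≤ C * η ^ 2 + n * m * (C * (2 * η) ^ 2) + C * η ^ 2 := by linarith
  refine htot.trans ?_
  rw [hδη, le_div_iff₀ hm']
  have h1 : C * η ^ 2 * m ≤ C * η ^ 2 * m ^ 2 := by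
    apply mul_le_mul_of_nonneg_left _ (by positivity)
    nlinarith
  nlinarith


end Xrchain

alias chain_bound := Xrchain.chain_bound

end Pool.Agent.Helper823.ManeN
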