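import Pool.Agent.Helper823.ManeN.Defs
import Pool.Agent.Helper823.ManeN.Xrchain

set_option autoImplicit false
open MeasureTheory Set Topology

namespace Pool.Agent.Helper823.ManeN
namespace Xrgrid






theorem mem_Cube_floor {n : ℕ} (δ : ℝ) (hδ : 0 < δ) (x : Fin n → ℝ) (z : Fin n → ℤ) :
    x ∈ Cube z δ ↔ (fun i => ⌊x i / δ⌋) = z := by
  unfold Cube
  rw [Set.mem_setOf_eq, funext_iff]
  refine forall_congr' (fun i => ?_)
  rw [Int.floor_eq_iff, le_div_iff₀ hδ, div_lt_iff₀ hδ]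

theorem Cube_disj {n : ℕ} (δ : ℝ) (hδ : 0 < δ) (F : (Fin n → ℤ) → Set (Fin n → ℝ))
    (hF : ∀ p, F p ⊆ Cube p δ) :
    Pairwise (Function.onFun Disjoint F) := by
  intro p q hpq
  show Disjoint (F p) (F q)
  rw [Set.disjoint_left]
  intro x hx hx'
  exact hpq (((mem_Cube_floor δ hδ x p).mp (hF p hx)).symm.trans
    ((mem_Cube_floor δ hδ x q).mp (hF q hx')))

theorem Cube_dist {n : ℕ} (δ : ℝ) (hδ : 0 < δ) (z : Fin n → ℤ) (w w' : Fin n → ℝ)
    (h : w ∈ Cube z δ) (h' : w' ∈ Cube z δ) : ‖w - w'‖ ≤ δ := by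
  rw [pi_norm_le_iff_of_nonneg hδ.le]
  intro i
  have h1 := h i
  have h2 := h' i
  rw [Pi.sub_apply, Real.norm_eq_abs, abs_le]
  constructor <;> nlinarith [h1.1, h1.2, h2.1, h2.2]

theorem Cube_pi {n : ℕ} (δ : ℝ) (z : Fin n → ℤ) :
    Cube z δ = Set.pi Set.univ (fun i => Set.Ico ((z i : ℝ) * δ) (((z i : ℝ) + 1) * δ)) := by
  ext x
  simp [Cube, Set.mem_pi]

theorem diam_image_le {n : ℕ} (S : Set (Fin n → ℝ)) (σ : (Fin n → ℝ) → ℝ) (D : ℝ) (hD : 0 ≤ D)
    (h : ∀ w ∈ S, ∀ w' ∈ S, |σ w - σ w'| ≤ D) : Metric.diam (σ '' S) ≤ D := by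
  refine Metric.diam_le_of_forall_dist_le hD ?_
  rintro _ ⟨w, hw, rfl⟩ _ ⟨w', hw', rfl⟩
  rw [Real.dist_eq]
  exact h w hw w' hw'

theorem local_bound {n : ℕ} (hn : 2 ≤ n) (W : Set (Fin n → ℝ)) (σ : (Fin n → ℝ) → ℝ) (C : ℝ)
    (hC : 0 ≤ C)
    (hσ : ∀ w ∈ W, ∀ w' ∈ W, |σ w - σ w'| ≤ C * ‖w - w'‖ ^ 2)
    (δ : ℝ) (hδ : 0 < δ) (m : ℕ) (hm : 0 < m) (p : Fin n → ℤ) :
    ∃ F G : Set (Fin n → ℝ), MeasurableSet F ∧ MeasurableSet G ∧ F ⊆ Cube p δ ∧ G ⊆ Cube p δ ∧
      F ⊆ Metric.cthickening δ (closure W) ∧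
      G ⊆ Metric.cthickening δ (closure W) \ closure W ∧
      ENNReal.ofReal (δ ^ (n - 2) * Metric.diam (σ '' (W ∩ Cube p δ))) ≤
        ENNReal.ofReal ((4 * n + 2) * C / m) * volume F +
        ENNReal.ofReal (C * m ^ n) * volume G := by
  have hm' : (0 : ℝ) < m := by exact_mod_cast hm
  have hpow : δ ^ (n - 2) * δ ^ 2 = δ ^ n := by rw [← pow_add]; congr 1; omega
  by_cases hne : (W ∩ Cube p δ).Nonempty
  swap
  · refine ⟨∅, ∅, MeasurableSet.empty, MeasurableSet.empty, Set.empty_subset _, Set.empty_subset _,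
      Set.empty_subset _, Set.empty_subset _, ?_⟩
    rw [Set.not_nonempty_iff_eq_empty.mp hne]
    simp
  obtain ⟨w0, hw0, hw0Q⟩ := hne
  have hQthick : Cube p δ ⊆ Metric.cthickening δ (closure W) := by
    intro x hx
    refine Metric.mem_cthickening_of_dist_le x w0 δ _ (subset_closure hw0) ?_
    rw [dist_eq_norm]
    exact Cube_dist δ hδ p x w0 hx hw0Q
  by_cases hfull : ∀ z' : Fin n → ℤ, (∀ i, m * p i ≤ z' i ∧ z' i < m * (p i + 1)) →
      ∃ w ∈ W, w ∈ Cube z' (δ / m)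
  · refine ⟨Cube p δ, ∅, ?_, MeasurableSet.empty, subset_rfl,
      Set.empty_subset _, hQthick, Set.empty_subset _, ?_⟩
    · rw [Cube_pi]
      exact MeasurableSet.univ_pi (fun i => measurableSet_Ico)
    rw [measure_empty, mul_zero, add_zero]
    have hvol : volume (Cube p δ) = ENNReal.ofReal (δ ^ n) := by
      rw [Cube_pi, Real.volume_pi_Ico, ENNReal.ofReal_pow hδ.le]
      rw [Finset.prod_congr rfl (g := fun _ => ENNReal.ofReal δ)]
      · rw [Finset.prod_const, Finset.card_univ, Fintype.card_fin]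
      · intro i _
        congr 1; ring
    rw [hvol, ← ENNReal.ofReal_mul (by positivity)]
    refine ENNReal.ofReal_le_ofReal ?_
    have hd : Metric.diam (σ '' (W ∩ Cube p δ)) ≤ (4 * n + 2) * C * δ ^ 2 / m :=
      diam_image_le _ σ _ (by positivity) (fun w hw w' hw' =>
        chain_bound W σ C hC hσ δ hδ m hm p hfull w w' hw.1 hw'.1 hw.2 hw'.2)
    calc δ ^ (n - 2) * Metric.diam (σ '' (W ∩ Cube p δ))
        ≤ δ ^ (n - 2) * ((4 * n + 2) * C * δ ^ 2 / m) :=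
          mul_le_mul_of_nonneg_left hd (by positivity)
      _ = (4 * n + 2) * C / m * (δ ^ (n - 2) * δ ^ 2) := by ring
      _ = _ := by rw [hpow]
  · push Not at hfull
    obtain ⟨z', hz', hzW⟩ := hfull
    have hdm : 0 < δ / m := by positivity
    have hmul : (m : ℝ) * (δ / m) = δ := by field_simp
    set G : Set (Fin n → ℝ) :=
      Set.pi Set.univ (fun i => Set.Ioo ((z' i : ℝ) * (δ / m)) (((z' i : ℝ) + 1) * (δ / m))) with hG
    have hGQ : G ⊆ Cube p δ := by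
      intro x hx i
      have hxi := hx i (Set.mem_univ i)
      have h1 : ((m : ℝ) * (p i : ℝ)) ≤ (z' i : ℝ) := by exact_mod_cast (hz' i).1
      have h2 : (z' i : ℝ) + 1 ≤ (m : ℝ) * ((p i : ℝ) + 1) := by
        have := (hz' i).2
        have h3 : z' i + 1 ≤ m * (p i + 1) := by omega
        exact_mod_cast h3
      have h4 : (p i : ℝ) * δ ≤ (z' i : ℝ) * (δ / m) := by
        calc (p i : ℝ) * δ = ((m : ℝ) * (p i : ℝ)) * (δ / m) := by
              rw [mul_comm (m : ℝ), mul_assoc, hmul]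
          _ ≤ _ := mul_le_mul_of_nonneg_right h1 hdm.le
      have h5 : ((z' i : ℝ) + 1) * (δ / m) ≤ ((p i : ℝ) + 1) * δ := by
        calc ((z' i : ℝ) + 1) * (δ / m) ≤ ((m : ℝ) * ((p i : ℝ) + 1)) * (δ / m) :=
              mul_le_mul_of_nonneg_right h2 hdm.le
          _ = _ := by rw [mul_comm (m : ℝ), mul_assoc, hmul]
      exact ⟨h4.trans hxi.1.le, hxi.2.trans_le h5⟩
    have hGopen : IsOpen G := isOpen_set_pi Set.finite_univ (fun i _ => isOpen_Ioo)
    have hGW : Disjoint G W := by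
      rw [Set.disjoint_left]
      intro x hx hxW
      refine hzW x hxW ?_
      intro i
      have hxi := hx i (Set.mem_univ i)
      exact ⟨hxi.1.le, hxi.2⟩
    have hGK : Disjoint G (closure W) := hGW.closure_right hGopen
    refine ⟨∅, G, MeasurableSet.empty, hGopen.measurableSet, Set.empty_subset _, hGQ,
      Set.empty_subset _, ?_, ?_⟩
    · intro x hx
      exact ⟨hQthick (hGQ hx), fun hxK => (Set.disjoint_left.mp hGK) hx hxK⟩
    · rw [measure_empty, mul_zero, zero_add]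
      have hvol : volume G = ENNReal.ofReal ((δ / m) ^ n) := by
        rw [hG, Real.volume_pi_Ioo, ENNReal.ofReal_pow hdm.le]
        rw [Finset.prod_congr rfl (g := fun _ => ENNReal.ofReal (δ / m))]
        · rw [Finset.prod_const, Finset.card_univ, Fintype.card_fin]
        · intro i _
          congr 1; ring
      rw [hvol, ← ENNReal.ofReal_mul (by positivity)]
      refine ENNReal.ofReal_le_ofReal ?_
      have hd : Metric.diam (σ '' (W ∩ Cube p δ)) ≤ C * δ ^ 2 :=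
        diam_image_le _ σ _ (by positivity) (fun w hw w' hw' => by
          refine le_trans (hσ w hw.1 w' hw'.1) ?_
          refine mul_le_mul_of_nonneg_left ?_ hC
          exact pow_le_pow_left₀ (norm_nonneg _) (Cube_dist δ hδ p w w' hw.2 hw'.2) 2)
      calc δ ^ (n - 2) * Metric.diam (σ '' (W ∩ Cube p δ))
          ≤ δ ^ (n - 2) * (C * δ ^ 2) := mul_le_mul_of_nonneg_left hd (by positivity)
        _ = C * (δ ^ (n - 2) * δ ^ 2) := by ring
        _ = C * δ ^ n := by rw [hpow]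
        _ = C * m ^ n * (δ / m) ^ n := by
            rw [mul_assoc, ← mul_pow, hmul]

theorem global_bound {n : ℕ} (hn : 2 ≤ n) (W : Set (Fin n → ℝ)) (σ : (Fin n → ℝ) → ℝ) (C : ℝ)
    (hC : 0 ≤ C)
    (hσ : ∀ w ∈ W, ∀ w' ∈ W, |σ w - σ w'| ≤ C * ‖w - w'‖ ^ 2)
    (δ : ℝ) (hδ : 0 < δ) (hδ1 : δ ≤ 1) (m : ℕ) (hm : 0 < m) (S : Finset (Fin n → ℤ)) :
    ENNReal.ofReal (∑ z ∈ S, δ ^ (n - 2) * Metric.diam (σ '' (W ∩ Cube z δ))) ≤
      ENNReal.ofReal ((4 * n + 2) * C / m) * volume (Metric.cthickening 1 (closure W)) +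
      ENNReal.ofReal (C * m ^ n) * volume (Metric.cthickening δ (closure W) \ closure W) := by
  choose F G hFm hGm hFQ hGQ hFK hGK hbd using fun p => local_bound hn W σ C hC hσ δ hδ m hm p
  have hnn : ∀ z ∈ S, 0 ≤ δ ^ (n - 2) * Metric.diam (σ '' (W ∩ Cube z δ)) := fun z _ =>
    mul_nonneg (by positivity) Metric.diam_nonneg
  calc ENNReal.ofReal (∑ z ∈ S, δ ^ (n - 2) * Metric.diam (σ '' (W ∩ Cube z δ)))
      = ∑ z ∈ S, ENNReal.ofReal (δ ^ (n - 2) * Metric.diam (σ '' (W ∩ Cube z δ))) :=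
        ENNReal.ofReal_sum_of_nonneg hnn
    _ ≤ ∑' z, ENNReal.ofReal (δ ^ (n - 2) * Metric.diam (σ '' (W ∩ Cube z δ))) :=
        ENNReal.sum_le_tsum S
    _ ≤ ∑' p : Fin n → ℤ, (ENNReal.ofReal ((4 * n + 2) * C / m) * volume (F p) +
        ENNReal.ofReal (C * m ^ n) * volume (G p)) := ENNReal.tsum_le_tsum hbd
    _ = ENNReal.ofReal ((4 * n + 2) * C / m) * volume (⋃ p, F p) +
        ENNReal.ofReal (C * m ^ n) * volume (⋃ p, G p) := by
      rw [ENNReal.tsum_add, ENNReal.tsum_mul_left, ENNReal.tsum_mul_left,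
        measure_iUnion (Cube_disj δ hδ F hFQ) hFm, measure_iUnion (Cube_disj δ hδ G hGQ) hGm]
    _ ≤ _ := by
      refine add_le_add ?_ ?_
      · refine mul_le_mul_right (measure_mono ?_) _
        exact Set.iUnion_subset (fun p => (hFK p).trans (Metric.cthickening_mono hδ1 _))
      · refine mul_le_mul_right (measure_mono ?_) _
        exact Set.iUnion_subset hGK

theorem exists_cover {n : ℕ} (W : Set (Fin n → ℝ)) (hW : Bornology.IsBounded W) (δ : ℝ)
    (hδ : 0 < δ) : ∃ F : Finset (Fin n → ℤ), ∀ w ∈ W, ∃ z ∈ F, w ∈ Cube z δ := by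
  obtain ⟨R, hR⟩ := hW.exists_norm_le
  refine ⟨Fintype.piFinset (fun _ => Finset.Icc ⌊-R / δ⌋ ⌊R / δ⌋), ?_⟩
  intro w hw
  refine ⟨fun i => ⌊w i / δ⌋, ?_, ?_⟩
  · rw [Fintype.mem_piFinset]
    intro i
    have h1 : |w i| ≤ R := by
      have := norm_le_pi_norm w i
      rw [Real.norm_eq_abs] at this
      exact this.trans (hR w hw)
    rw [abs_le] at h1
    rw [Finset.mem_Icc]
    exact ⟨Int.floor_le_floor (div_le_div_of_nonneg_right h1.1 hδ.le),
      Int.floor_le_floor (div_le_div_of_nonneg_right h1.2 hδ.le)⟩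
  · rw [mem_Cube_floor δ hδ]

/-! TARGET: prove this one -/
/-- small grid coverings -/
theorem grid_small {n : ℕ} (hn : 2 ≤ n) (W : Set (Fin n → ℝ)) (hW : Bornology.IsBounded W)
    (σ : (Fin n → ℝ) → ℝ) (C : ℝ) (hC : 0 ≤ C)
    (hσ : ∀ w ∈ W, ∀ w' ∈ W, |σ w - σ w'| ≤ C * ‖w - w'‖ ^ 2)
    (ε : ℝ) (hε : 0 < ε) (δ₀ : ℝ) (hδ₀ : 0 < δ₀) :
    ∃ δ : ℝ, 0 < δ ∧ δ < δ₀ ∧ ∃ F : Finset (Fin n → ℤ), (∀ w ∈ W, ∃ z ∈ F, w ∈ Cube z δ) ∧
      ∑ z ∈ F, δ ^ (n - 2) * Metric.diam (σ '' (W ∩ Cube z δ)) ≤ ε := by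
  have hK : IsCompact (closure W) := hW.isCompact_closure
  have hA : volume (Metric.cthickening 1 (closure W)) < ⊤ := (hK.cthickening).measure_lt_top
  have hKfin : volume (closure W) ≠ ⊤ := hK.measure_lt_top.ne
  have hlim : Filter.Tendsto (fun δ : ℝ => volume (Metric.cthickening δ (closure W) \ closure W))
      (nhds 0) (nhds 0) := by
    have h1 := tendsto_measure_cthickening_of_isCompact (μ := volume) hK
    have h2 : Filter.Tendsto (fun δ : ℝ => volume (Metric.cthickening δ (closure W)) - volume (closure W))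
        (nhds 0) (nhds (volume (closure W) - volume (closure W))) :=
      ENNReal.Tendsto.sub h1 tendsto_const_nhds (Or.inl hKfin)
    rw [tsub_self] at h2
    refine h2.congr (fun δ => ?_)
    rw [measure_diff (Metric.self_subset_cthickening _) hK.isClosed.measurableSet.nullMeasurableSet hKfin]
  have hlim2 : Filter.Tendsto (fun m : ℕ => ENNReal.ofReal ((4 * n + 2) * C / m) *
      volume (Metric.cthickening 1 (closure W))) Filter.atTop (nhds 0) := by
    have h5 : Filter.Tendsto (fun m : ℕ => ENNReal.ofReal ((4 * n + 2) * C / m)) Filter.atTop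
        (nhds 0) := by
      have h6 := ENNReal.tendsto_ofReal (tendsto_const_div_atTop_nhds_zero_nat ((4 * n + 2) * C))
      rwa [ENNReal.ofReal_zero] at h6
    have h7 := ENNReal.Tendsto.mul_const h5 (b := volume (Metric.cthickening 1 (closure W)))
      (Or.inr hA.ne)
    rwa [zero_mul] at h7
  have hεp : (0 : ENNReal) < ENNReal.ofReal ε := ENNReal.ofReal_pos.mpr hε
  obtain ⟨m, hm0, hmε⟩ := ((Filter.eventually_gt_atTop 0).and
    (hlim2.eventually (gt_mem_nhds hεp))).exists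
  have h3 : Filter.Tendsto (fun δ : ℝ => ENNReal.ofReal ((4 * n + 2) * C / m) *
      volume (Metric.cthickening 1 (closure W)) + ENNReal.ofReal (C * m ^ n) *
      volume (Metric.cthickening δ (closure W) \ closure W)) (nhdsWithin 0 (Set.Ioi 0))
      (nhds (ENNReal.ofReal ((4 * n + 2) * C / m) * volume (Metric.cthickening 1 (closure W)) +
        ENNReal.ofReal (C * m ^ n) * 0)) := by
    refine Filter.Tendsto.add tendsto_const_nhds ?_
    exact ENNReal.Tendsto.const_mul (hlim.mono_left nhdsWithin_le_nhds) (Or.inr ENNReal.ofReal_ne_top)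
  rw [mul_zero, add_zero] at h3
  have h4 : Set.Ioc (0:ℝ) 1 ∈ nhdsWithin (0:ℝ) (Set.Ioi 0) := Ioc_mem_nhdsGT one_pos
  have h4' : Set.Ioo (0:ℝ) δ₀ ∈ nhdsWithin (0:ℝ) (Set.Ioi 0) := Ioo_mem_nhdsGT hδ₀
  obtain ⟨δ, ⟨hδ1, hδ2⟩, hδ3⟩ := ((Filter.eventually_of_mem h4 (fun _ h => h)).and
    (Filter.eventually_of_mem h4' (fun _ h => h)) |>.and
    (h3.eventually (gt_mem_nhds hmε))).exists
  obtain ⟨F, hF⟩ := exists_cover W hW δ hδ1.1
  refine ⟨δ, hδ1.1, hδ2.2, F, hF, ?_⟩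
  have h8 := (global_bound hn W σ C hC hσ δ hδ1.1 hδ1.2 m hm0 F).trans hδ3.le
  exact (ENNReal.ofReal_le_ofReal_iff hε.le).mp h8


end Xrgrid

alias grid_small := Xrgrid.grid_small

end Pool.Agent.Helper823.ManeN
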