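import Pool.Agent.Helper823.ManeN.Defs
import Pool.Agent.Helper823.ManeN.Xrgrid

set_option autoImplicit false
open MeasureTheory Set Topology

namespace Pool.Agent.Helper823.ManeN
namespace Xrlevel






/-! TARGET: prove this one -/
/-- almost every level set of a quadratically Hölder function on a subset of `ℝⁿ` is null for the
`(n-2)`-dimensional Hausdorff measure -/
theorem level_null {n : ℕ} (hn : 2 ≤ n) (W : Set (Fin n → ℝ)) (hW : Bornology.IsBounded W)
    (σ : (Fin n → ℝ) → ℝ) (C : ℝ) (hC : 0 ≤ C)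
    (hσ : ∀ w ∈ W, ∀ w' ∈ W, |σ w - σ w'| ≤ C * ‖w - w'‖ ^ 2) :
    ∀ᵐ s : ℝ, μH[(n : ℝ) - 2] {w | w ∈ W ∧ σ w = s} = 0 := by
  classical
  have hch : ∀ j : ℕ, ∃ δ : ℝ, 0 < δ ∧ δ < 1 / ((j:ℝ) + 1) ∧ ∃ F : Finset (Fin n → ℤ),
      (∀ w ∈ W, ∃ z ∈ F, w ∈ Cube z δ) ∧
      ∑ z ∈ F, δ ^ (n - 2) * Metric.diam (σ '' (W ∩ Cube z δ)) ≤ (1/2 : ℝ)^j := by
    intro j
    exact grid_small hn W hW σ C hC hσ _ (by positivity) _ (by positivity)
  choose δ hδ0 hδ1 F hF hsum using hch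
  have hbd : ∀ j z, Bornology.IsBounded (σ '' (W ∩ Cube z (δ j))) := by
    intro j z
    obtain ⟨R, hR⟩ := (Metric.isBounded_iff).mp hW
    rw [Metric.isBounded_iff]
    refine ⟨C * R^2, ?_⟩
    rintro _ ⟨w, ⟨hw, _⟩, rfl⟩ _ ⟨w', ⟨hw', _⟩, rfl⟩
    rw [Real.dist_eq]
    refine (hσ w hw w' hw').trans ?_
    have h1 := hR hw hw'
    rw [dist_eq_norm] at h1
    exact mul_le_mul_of_nonneg_left (pow_le_pow_left₀ (norm_nonneg _) h1 2) hC
  set I : ℕ → (Fin n → ℤ) → Set ℝ := fun j z =>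
    Icc (sInf (σ '' (W ∩ Cube z (δ j)))) (sSup (σ '' (W ∩ Cube z (δ j)))) with hI
  set g : ℕ → ℝ → ENNReal := fun j s =>
    ∑ z ∈ F j, (I j z).indicator (fun _ => ENNReal.ofReal ((δ j)^(n-2))) s with hg
  have hgm : ∀ j, Measurable (g j) := by
    intro j
    rw [hg]
    refine Finset.measurable_sum _ (fun z _ => ?_)
    exact measurable_const.indicator measurableSet_Icc
  have hgi : ∀ j, ∫⁻ s, g j s ≤ ENNReal.ofReal ((1/2 : ℝ)^j) := by
    intro j
    rw [hg]
    simp only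
    rw [lintegral_finset_sum _ (fun z _ => measurable_const.indicator measurableSet_Icc)]
    have h1 : ∀ z ∈ F j, ∫⁻ s, (I j z).indicator (fun _ => ENNReal.ofReal ((δ j)^(n-2))) s
        = ENNReal.ofReal ((δ j)^(n-2) * Metric.diam (σ '' (W ∩ Cube z (δ j)))) := by
      intro z _
      rw [lintegral_indicator_const measurableSet_Icc, Real.volume_Icc, ← Real.diam_eq (hbd j z),
        ← ENNReal.ofReal_mul (pow_nonneg (hδ0 j).le _)]
    rw [Finset.sum_congr rfl h1, ← ENNReal.ofReal_sum_of_nonneg]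
    · exact ENNReal.ofReal_le_ofReal (hsum j)
    · intro z _
      exact mul_nonneg (pow_nonneg (hδ0 j).le _) Metric.diam_nonneg
  have hfin : ∫⁻ s, ∑' j, g j s ≠ ⊤ := by
    rw [lintegral_tsum (fun j => (hgm j).aemeasurable)]
    refine ne_top_of_le_ne_top ?_ (ENNReal.tsum_le_tsum hgi)
    exact (summable_geometric_of_lt_one (by norm_num) (by norm_num)).tsum_ofReal_ne_top
  have hae : ∀ᵐ s : ℝ, ∑' j, g j s < ⊤ :=
    ae_lt_top (Measurable.ennreal_tsum hgm) hfin
  filter_upwards [hae] with s hs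
  have htend : Filter.Tendsto (fun j => g j s) Filter.atTop (𝓝 0) :=
    ENNReal.tendsto_atTop_zero_of_tsum_ne_top hs.ne
  have hdiam : ∀ (j : ℕ) (z : Fin n → ℤ), Metric.ediam (Cube z (δ j)) ≤ ENNReal.ofReal (δ j) := by
    intro j z
    refine Metric.ediam_le ?_
    intro x hx y hy
    rw [edist_pi_le_iff]
    intro i
    rw [edist_dist, Real.dist_eq]
    apply ENNReal.ofReal_le_ofReal
    have h1 := hx i
    have h2 := hy i
    rw [abs_le]
    constructor <;> nlinarith [h1.1, h1.2, h2.1, h2.2]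
  have hr : Filter.Tendsto (fun j => ENNReal.ofReal (δ j)) Filter.atTop (𝓝 0) := by
    rw [← ENNReal.ofReal_zero]
    refine ENNReal.tendsto_ofReal ?_
    exact squeeze_zero (fun j => (hδ0 j).le) (fun j => (hδ1 j).le) tendsto_one_div_add_atTop_nhds_zero_nat
  have hd : (n : ℝ) - 2 = ((n - 2 : ℕ) : ℝ) := by
    rw [Nat.cast_sub hn]
    norm_num
  have hmain := Measure.hausdorffMeasure_le_liminf_sum (X := Fin n → ℝ) ((n : ℝ) - 2)
    {w | w ∈ W ∧ σ w = s} (l := Filter.atTop)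
    (ι := fun j => {z // z ∈ (F j).filter (fun z => s ∈ I j z)})
    (fun j : ℕ => ENNReal.ofReal (δ j)) hr
    (fun j i => Cube i.1 (δ j))
    (Filter.Eventually.of_forall (fun j i => hdiam j i.1))
    (Filter.Eventually.of_forall (fun j => by
      rintro w ⟨hw, hws⟩
      obtain ⟨z, hz, hwz⟩ := hF j w hw
      have hmem : s ∈ σ '' (W ∩ Cube z (δ j)) := ⟨w, ⟨hw, hwz⟩, hws⟩
      have hsI : s ∈ I j z :=
        ⟨csInf_le (hbd j z).bddBelow hmem, le_csSup (hbd j z).bddAbove hmem⟩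
      rw [mem_iUnion]
      exact ⟨⟨z, Finset.mem_filter.mpr ⟨hz, hsI⟩⟩, hwz⟩))
  have hle : ∀ j : ℕ, ∑ i : {z // z ∈ (F j).filter (fun z => s ∈ I j z)},
      Metric.ediam (Cube i.1 (δ j)) ^ ((n : ℝ) - 2) ≤ g j s := by
    intro j
    have h1 : ∀ i : {z // z ∈ (F j).filter (fun z => s ∈ I j z)},
        Metric.ediam (Cube i.1 (δ j)) ^ ((n : ℝ) - 2) ≤ ENNReal.ofReal ((δ j)^(n-2)) := by
      intro i
      rw [hd, ENNReal.rpow_natCast, ENNReal.ofReal_pow (hδ0 j).le]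
      exact pow_le_pow_left' (hdiam j i.1) _
    refine (Finset.sum_le_sum (fun i _ => h1 i)).trans ?_
    rw [Finset.sum_coe_sort ((F j).filter (fun z => s ∈ I j z))
      (fun _ => ENNReal.ofReal ((δ j)^(n-2))), Finset.sum_filter]
    rw [hg]
    simp only
    refine Finset.sum_le_sum (fun z _ => ?_)
    by_cases hz : s ∈ I j z
    · rw [if_pos hz, indicator_of_mem hz]
    · rw [if_neg hz]
      exact bot_le
  have hlim : Filter.liminf (fun j : ℕ => ∑ i : {z // z ∈ (F j).filter (fun z => s ∈ I j z)},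
      Metric.ediam (Cube i.1 (δ j)) ^ ((n : ℝ) - 2)) Filter.atTop ≤ 0 := by
    rw [← htend.liminf_eq]
    exact Filter.liminf_le_liminf (Filter.Eventually.of_forall hle)
  exact le_antisymm (hmain.trans hlim) bot_le


end Xrlevel

alias level_null := Xrlevel.level_null

end Pool.Agent.Helper823.ManeN
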