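import Pool.Agent.Helper823.ManeN.Defs
import Pool.Agent.Helper823.ManeN.Xrlevel

set_option autoImplicit false
open MeasureTheory Set Topology

namespace Pool.Agent.Helper823.ManeN
namespace XrlevelE




theorem toLp_norm_sq_le {n : ℕ} (v : Fin n → ℝ) : ‖(WithLp.toLp 2 v : EuclideanSpace ℝ (Fin n))‖ ^ 2 ≤ n * ‖v‖ ^ 2 := by
  rw [EuclideanSpace.real_norm_sq_eq]
  calc ∑ i, (WithLp.toLp 2 v : EuclideanSpace ℝ (Fin n)) i ^ 2 ≤ ∑ _i : Fin n, ‖v‖ ^ 2 := by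
        apply Finset.sum_le_sum
        intro i _
        have h : ‖v i‖ ≤ ‖v‖ := norm_le_pi_norm v i
        have h2 : (v i) ^ 2 = ‖v i‖ ^ 2 := by rw [Real.norm_eq_abs, sq_abs]
        show (v i) ^ 2 ≤ ‖v‖ ^ 2
        rw [h2]
        exact pow_le_pow_left₀ (norm_nonneg _) h 2
    _ = n * ‖v‖ ^ 2 := by
        rw [Finset.sum_const, Finset.card_univ, Fintype.card_fin, nsmul_eq_mul]

theorem norm_le_toLp {n : ℕ} (v : Fin n → ℝ) : ‖v‖ ≤ ‖(WithLp.toLp 2 v : EuclideanSpace ℝ (Fin n))‖ := by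
  rw [pi_norm_le_iff_of_nonneg (norm_nonneg _)]
  intro i
  exact PiLp.norm_apply_le (WithLp.toLp 2 v : EuclideanSpace ℝ (Fin n)) i

theorem level_bdd {n : ℕ} (hn : 2 ≤ n) (W : Set (EuclideanSpace ℝ (Fin n)))
    (σ : EuclideanSpace ℝ (Fin n) → ℝ) (C : ℝ) (hC : 0 ≤ C) (R : ℝ) (hR : ∀ w ∈ W, ‖w‖ ≤ R)
    (hσ : ∀ w ∈ W, ∀ w' ∈ W, |σ w - σ w'| ≤ C * ‖w - w'‖ ^ 2) :
    ∀ᵐ s : ℝ, μH[(n : ℝ) - 2] {w | w ∈ W ∧ σ w = s} = 0 := by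
  have h1 := level_null hn {v : Fin n → ℝ | (WithLp.toLp 2 v : EuclideanSpace ℝ (Fin n)) ∈ W} (by
    rw [isBounded_iff_forall_norm_le]
    exact ⟨R, fun v hv => (norm_le_toLp v).trans (hR _ hv)⟩)
    (fun v => σ (WithLp.toLp 2 v)) (C * n) (by positivity) (by
    intro v hv v' hv'
    refine (hσ _ hv _ hv').trans ?_
    rw [mul_assoc]
    apply mul_le_mul_of_nonneg_left _ hC
    rw [← WithLp.toLp_sub]
    exact toLp_norm_sq_le _)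
  filter_upwards [h1] with s hs
  have hd : (0 : ℝ) ≤ (n : ℝ) - 2 := by
    have : (2 : ℝ) ≤ n := by exact_mod_cast hn
    linarith
  have himg : {w | w ∈ W ∧ σ w = s} = (WithLp.toLp 2 : (Fin n → ℝ) → EuclideanSpace ℝ (Fin n)) ''
      {v | (WithLp.toLp 2 v : EuclideanSpace ℝ (Fin n)) ∈ W ∧ σ (WithLp.toLp 2 v) = s} := by
    ext w
    constructor
    · rintro ⟨hw, hws⟩
      exact ⟨WithLp.ofLp w, ⟨hw, hws⟩, rfl⟩
    · rintro ⟨v, ⟨hv, hvs⟩, rfl⟩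
      exact ⟨hv, hvs⟩
  rw [himg]
  have h2 := (PiLp.lipschitzWith_toLp 2 (fun _ : Fin n => ℝ)).hausdorffMeasure_image_le hd
    {v | (WithLp.toLp 2 v : EuclideanSpace ℝ (Fin n)) ∈ W ∧ σ (WithLp.toLp 2 v) = s}
  have hs' : μH[(n : ℝ) - 2] {v | (WithLp.toLp 2 v : EuclideanSpace ℝ (Fin n)) ∈ W ∧
      σ (WithLp.toLp 2 v) = s} = 0 := hs
  rw [hs', mul_zero] at h2
  exact le_antisymm h2 bot_le


/-! TARGET: prove this one -/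
theorem level_null_euclid {n : ℕ} (hn : 2 ≤ n) (W : Set (EuclideanSpace ℝ (Fin n)))
    (σ : EuclideanSpace ℝ (Fin n) → ℝ) (C : ℝ) (hC : 0 ≤ C)
    (hσ : ∀ w ∈ W, ∀ w' ∈ W, |σ w - σ w'| ≤ C * ‖w - w'‖ ^ 2) :
    ∀ᵐ s : ℝ, μH[(n : ℝ) - 2] {w | w ∈ W ∧ σ w = s} = 0 := by
  have h1 : ∀ N : ℕ, ∀ᵐ s : ℝ, μH[(n : ℝ) - 2] {w | w ∈ W ∩ {w | ‖w‖ ≤ N} ∧ σ w = s} = 0 := by
    intro N
    exact level_bdd hn _ σ C hC N (fun w hw => hw.2) (fun w hw w' hw' => hσ w hw.1 w' hw'.1)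
  rw [← ae_all_iff] at h1
  filter_upwards [h1] with s hs
  refine measure_mono_null ?_ (measure_iUnion_null hs)
  rintro w ⟨hw, hws⟩
  rw [mem_iUnion]
  obtain ⟨N, hN⟩ := exists_nat_ge ‖w‖
  exact ⟨N, ⟨hw, hN⟩, hws⟩


end XrlevelE

alias level_null_euclid := XrlevelE.level_null_euclid

end Pool.Agent.Helper823.ManeN
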