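import Pool.Agent.Helper823.ManeN.Defs

set_option autoImplicit false
open MeasureTheory Set Topology

namespace Pool.Agent.Helper823.ManeN
namespace Xrsub

/-- a finite convex function on the Euclidean plane has a subgradient everywhere -/
theorem exists_subgradient {n : ℕ} (f : EuclideanSpace ℝ (Fin n) → ℝ) (hf : ConvexOn ℝ Set.univ f)
    (x : EuclideanSpace ℝ (Fin n)) :
    ∃ c : EuclideanSpace ℝ (Fin n), ∀ y, f x + inner ℝ c (y - x) ≤ f y := by
  have hcont : Continuous f := hf.locallyLipschitz.continuous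
  have hconv : Convex ℝ {p : EuclideanSpace ℝ (Fin n) × ℝ | p.1 ∈ Set.univ ∧ f p.1 < p.2} :=
    hf.convex_strict_epigraph
  have hopen : IsOpen {p : EuclideanSpace ℝ (Fin n) × ℝ | p.1 ∈ Set.univ ∧ f p.1 < p.2} := by
    have : {p : EuclideanSpace ℝ (Fin n) × ℝ | p.1 ∈ Set.univ ∧ f p.1 < p.2} =
        {p | f p.1 < p.2} := by
      ext p; simp
    rw [this]
    exact isOpen_lt (hcont.comp continuous_fst) continuous_snd
  have hnot : (x, f x) ∉ {p : EuclideanSpace ℝ (Fin n) × ℝ | p.1 ∈ Set.univ ∧ f p.1 < p.2} := by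
    rintro ⟨-, h⟩
    exact lt_irrefl _ h
  obtain ⟨g, hg⟩ := geometric_hahn_banach_open_point hconv hopen hnot
  have hdec : ∀ (y : EuclideanSpace ℝ (Fin n)) (t : ℝ), g (y, t) = g (y, 0) + t * g (0, 1) := by
    intro y t
    have h1 : ((y, t) : EuclideanSpace ℝ (Fin n) × ℝ) = (y, 0) + t • (0, 1) := by
      simp
    rw [h1, map_add, map_smul, smul_eq_mul]
  have ha : g (0, 1) < 0 := by
    have h1 := hg (x, f x + 1) ⟨Set.mem_univ _, by simp⟩
    rw [hdec x (f x + 1), hdec x (f x)] at h1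
    linarith
  have hle : ∀ y, g (y, 0) + f y * g (0, 1) ≤ g (x, 0) + f x * g (0, 1) := by
    intro y
    by_contra hcon
    push Not at hcon
    obtain ⟨δ, hδ⟩ : ∃ δ : ℝ, δ = (g (y, 0) + f y * g (0, 1)) - (g (x, 0) + f x * g (0, 1)) :=
      ⟨_, rfl⟩
    have hδ0 : 0 < δ := by rw [hδ]; linarith
    have hε : 0 < δ / (2 * (-g (0, 1))) := div_pos hδ0 (by linarith)
    have h1 := hg (y, f y + δ / (2 * (-g (0, 1)))) ⟨Set.mem_univ _, by
      show f y < f y + δ / (2 * (-g (0, 1)))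
      linarith⟩
    rw [hdec y, hdec x (f x)] at h1
    have h2 : δ / (2 * (-g (0, 1))) * g (0, 1) = -(δ / 2) := by
      have : g (0, 1) ≠ 0 := ha.ne
      field_simp
    have h3 : (f y + δ / (2 * (-g (0, 1)))) * g (0, 1) = f y * g (0, 1) - δ / 2 := by
      rw [add_mul, h2]; ring
    rw [h3] at h1
    linarith
  refine ⟨(InnerProductSpace.toDual ℝ (EuclideanSpace ℝ (Fin n))).symm
    ((-g (0, 1))⁻¹ • (g.comp (ContinuousLinearMap.inl ℝ (EuclideanSpace ℝ (Fin n)) ℝ))), ?_⟩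
  intro y
  rw [InnerProductSpace.toDual_symm_apply]
  have h1 := hle y
  have h2 : g (y - x, 0) = g (y, 0) - g (x, 0) := by
    rw [← map_sub]
    simp
  have h3 : ((-g (0, 1))⁻¹ • (g.comp (ContinuousLinearMap.inl ℝ
      (EuclideanSpace ℝ (Fin n)) ℝ))) (y - x) = (-g (0, 1))⁻¹ * (g (y, 0) - g (x, 0)) := by
    rw [← h2]
    simp
  rw [h3]
  have h4 : (g (y, 0) - g (x, 0)) ≤ (-g (0, 1)) * (f y - f x) := by linarith
  have h5 : (-g (0, 1))⁻¹ * (g (y, 0) - g (x, 0)) ≤ f y - f x := by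
    rw [inv_mul_le_iff₀ (by linarith)]
    exact h4
  linarith


end Xrsub

alias exists_subgradient := Xrsub.exists_subgradient

end Pool.Agent.Helper823.ManeN
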