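import Pool.Agent.Helper823.ManeN.Defs
import Pool.Agent.Helper823.ManeN.XrlevelE
import Pool.Agent.Helper823.ManeN.Xrsub
import Pool.Agent.Helper823.ManeN.Xtwosup

set_option autoImplicit false
open MeasureTheory Set Topology

namespace Pool.Agent.Helper823.ManeN
namespace Xrsaddle








/-! TARGET: prove this one -/
theorem sd_basic {n : ℕ} (H : ℝ → EuclideanSpace ℝ (Fin n) → ℝ) (s s' r r' : ℝ)
    (h h' c c' : EuclideanSpace ℝ (Fin n))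
    (h1 : ∀ y, H y h ≤ H s h + r * (y - s)) (h2 : ∀ y, H s h + inner ℝ c (y - h) ≤ H s y)
    (h1' : ∀ y, H y h' ≤ H s' h' + r' * (y - s'))
    (h2' : ∀ y, H s' h' + inner ℝ c' (y - h') ≤ H s' y) :
    (r - r') * (s - s') ≤ inner ℝ (c - c') (h - h') := by
  have e1 := h1 s'
  have e2 := h2' h
  have e3 := h1' s
  have e4 := h2 h'
  have e5 : (inner ℝ c (h' - h) : ℝ) = - inner ℝ c (h - h') := by
    rw [← inner_neg_right, neg_sub]
  rw [inner_sub_left]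
  rw [e5] at e4
  nlinarith

theorem sd_norm {n : ℕ} (h h' c c' : EuclideanSpace ℝ (Fin n)) :
    inner ℝ (c - c') (h - h') ≤ (1 / 4) * ‖(h + c) - (h' + c')‖ ^ 2 ∧
    ‖h - h'‖ ^ 2 + 2 * inner ℝ (c - c') (h - h') ≤ ‖(h + c) - (h' + c')‖ ^ 2 := by
  have e7 : (h + c) - (h' + c') = (h - h') + (c - c') := by abel
  have e8 : ‖(h - h') + (c - c')‖ ^ 2 = ‖(h - h') - (c - c')‖ ^ 2
      + 4 * inner ℝ (c - c') (h - h') := by
    rw [norm_add_sq_real (h - h') (c - c'), norm_sub_sq_real (h - h') (c - c'),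
      real_inner_comm (c - c') (h - h')]
    ring
  have e10 : ‖(h - h') + (c - c')‖ ^ 2 = ‖h - h'‖ ^ 2 + 2 * inner ℝ (c - c') (h - h')
      + ‖c - c'‖ ^ 2 := by
    rw [norm_add_sq_real (h - h') (c - c'), real_inner_comm (c - c') (h - h')]
  have e9 := sq_nonneg ‖(h - h') - (c - c')‖
  have e11 := sq_nonneg ‖c - c'‖
  rw [e7]
  constructor
  · rw [e8]; linarith
  · rw [e10]; linarith

theorem sd_piece {n : ℕ} (hn : 2 ≤ n)
    (R : EuclideanSpace ℝ (Fin n) → ℝ → EuclideanSpace ℝ (Fin n) → Prop) (C : ℝ) (hC : 0 ≤ C)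
    (h1 : ∀ w s h w' s' h', R w s h → R w' s' h' → |s - s'| ≤ C * ‖w - w'‖ ^ 2)
    (h2 : ∀ w s h w' s' h', R w s h → R w' s' h' → ‖h - h'‖ ≤ ‖w - w'‖) :
    ∀ᵐ s : ℝ, μH[(n : ℝ) - 2] {h | ∃ w, R w s h} = 0 := by
  classical
  have hd : (0:ℝ) ≤ (n : ℝ) - 2 := by
    have : (2:ℝ) ≤ n := by exact_mod_cast hn
    linarith
  obtain ⟨W, hW⟩ : ∃ W : Set (EuclideanSpace ℝ (Fin n)), W = {w | ∃ s h, R w s h} := ⟨_, rfl⟩
  have hch : ∀ w, ∃ sh : ℝ × EuclideanSpace ℝ (Fin n), w ∈ W → R w sh.1 sh.2 := by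
    intro w
    by_cases hw : w ∈ W
    · have hw' := hw
      rw [hW] at hw'
      obtain ⟨s, h, hR⟩ := hw'
      exact ⟨(s, h), fun _ => hR⟩
    · exact ⟨(0, 0), fun h => absurd h hw⟩
  choose F hF using hch
  have h0 := level_null_euclid hn W (fun w => (F w).1) C hC
    (fun w hw w' hw' => h1 w _ _ w' _ _ (hF w hw) (hF w' hw'))
  filter_upwards [h0] with s hs
  have hL : LipschitzOnWith 1 (fun w => (F w).2) {w | w ∈ W ∧ (F w).1 = s} := by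
    apply LipschitzOnWith.of_dist_le_mul
    intro w hw w' hw'
    rw [dist_eq_norm, dist_eq_norm]
    have := h2 w _ _ w' _ _ (hF w hw.1) (hF w' hw'.1)
    simpa using this
  have h3 := hL.hausdorffMeasure_image_le hd
  rw [hs, mul_zero] at h3
  have h4 : μH[(n : ℝ) - 2] ((fun w => (F w).2) '' {w | w ∈ W ∧ (F w).1 = s}) = 0 :=
    nonpos_iff_eq_zero.1 h3
  apply measure_mono_null _ h4
  rintro h ⟨w, hR⟩
  have hw : w ∈ W := by rw [hW]; exact ⟨s, h, hR⟩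
  have e1 := h1 w _ _ w _ _ (hF w hw) hR
  have e2 := h2 w _ _ w _ _ (hF w hw) hR
  rw [sub_self, norm_zero] at e1 e2
  refine ⟨w, ⟨hw, ?_⟩, ?_⟩
  · have h5 : |(F w).1 - s| = 0 := le_antisymm (by simpa using e1) (abs_nonneg _)
    exact sub_eq_zero.1 (abs_eq_zero.1 h5)
  · have h6 : ‖(F w).2 - h‖ = 0 := le_antisymm e2 (norm_nonneg _)
    exact sub_eq_zero.1 (norm_eq_zero.1 h6)

/-- Saddle functions `H(s, h)` on `ℝ × ℝⁿ`, concave in `s` and convex in `h`: for almost every `s`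
the set of the `h` such that `H(·, h)` is not differentiable at `s` has zero `(n-2)`-dimensional
Hausdorff measure. -/
theorem saddle_ae {n : ℕ} (hn : 2 ≤ n) (H : ℝ → EuclideanSpace ℝ (Fin n) → ℝ)
    (hs : ∀ h, ConcaveOn ℝ Set.univ (fun s => H s h))
    (hh : ∀ s, ConvexOn ℝ Set.univ (H s)) :
    ∀ᵐ s : ℝ, μH[(n : ℝ) - 2] {h | ¬ DifferentiableAt ℝ (fun s' => H s' h) s} = 0 := by
  classical
  -- the relation
  obtain ⟨R, hR⟩ : ∃ R : ℕ → ℤ → EuclideanSpace ℝ (Fin n) → ℝ → EuclideanSpace ℝ (Fin n) → Prop,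
    R = fun (m : ℕ) (k : ℤ) (w : EuclideanSpace ℝ (Fin n)) (s : ℝ) (h : EuclideanSpace ℝ (Fin n)) =>
    ∃ (c : EuclideanSpace ℝ (Fin n)) (r₁ r₂ : ℝ), w = h + c ∧
      (∀ y, H y h ≤ H s h + r₁ * (y - s)) ∧ (∀ y, H y h ≤ H s h + r₂ * (y - s)) ∧
      (∀ y, H s h + inner ℝ c (y - h) ≤ H s y) ∧ 1 / ((m:ℝ) + 1) ≤ r₂ - r₁ ∧
      (k:ℝ) ≤ 2 * ((m:ℝ) + 1) * r₁ ∧ 2 * ((m:ℝ) + 1) * r₁ < k + 1 := ⟨_, rfl⟩
  have hRd : ∀ m k w s h, R m k w s h ↔ ∃ (c : EuclideanSpace ℝ (Fin n)) (r₁ r₂ : ℝ), w = h + c ∧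
      (∀ y, H y h ≤ H s h + r₁ * (y - s)) ∧ (∀ y, H y h ≤ H s h + r₂ * (y - s)) ∧
      (∀ y, H s h + inner ℝ c (y - h) ≤ H s y) ∧ 1 / ((m:ℝ) + 1) ≤ r₂ - r₁ ∧
      (k:ℝ) ≤ 2 * ((m:ℝ) + 1) * r₁ ∧ 2 * ((m:ℝ) + 1) * r₁ < k + 1 := by
    intro m k w s h
    rw [hR]
  have hnull : ∀ (m : ℕ) (k : ℤ), ∀ᵐ s : ℝ, μH[(n : ℝ) - 2] {h | ∃ w, R m k w s h} = 0 := by
    intro m k
    have hm : (0:ℝ) < (m:ℝ) + 1 := by positivity
    have key : ∀ w s h w' s' h', R m k w s h → R m k w' s' h' → s' ≤ s →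
        |s - s'| ≤ (((m:ℝ) + 1) / 2) * ‖w - w'‖ ^ 2 ∧ ‖h - h'‖ ≤ ‖w - w'‖ := by
      intro w s h w' s' h' hr hr' hle
      rw [hRd] at hr hr'
      obtain ⟨c, r₁, r₂, hw, ha, hb, hc, hd, he, hf⟩ := hr
      obtain ⟨c', r₁', r₂', hw', ha', hb', hc', hd', he', hf'⟩ := hr'
      have e1 := sd_basic H s s' r₂ r₁' h h' c c' hb hc ha' hc'
      obtain ⟨n1, n2⟩ := sd_norm h h' c c'
      rw [← hw, ← hw'] at n1 n2
      have e2 : 1 / (2 * ((m:ℝ) + 1)) ≤ r₂ - r₁' := by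
        have e3 : r₁' - r₁ ≤ 1 / (2 * ((m:ℝ) + 1)) := by
          rw [le_div_iff₀ (by positivity)]
          nlinarith
        have e4 : 1 / ((m:ℝ) + 1) = 1 / (2 * ((m:ℝ) + 1)) + 1 / (2 * ((m:ℝ) + 1)) := by
          field_simp
          norm_num
        linarith
      have e5 : 1 / (2 * ((m:ℝ) + 1)) * (s - s') ≤ inner ℝ (c - c') (h - h') :=
        le_trans (mul_le_mul_of_nonneg_right e2 (sub_nonneg.2 hle)) e1
      have e7 : 0 ≤ 1 / (2 * ((m:ℝ) + 1)) * (s - s') :=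
        mul_nonneg (by positivity) (sub_nonneg.2 hle)
      constructor
      · rw [abs_of_nonneg (sub_nonneg.2 hle)]
        have e6 : s - s' = (2 * ((m:ℝ) + 1)) * (1 / (2 * ((m:ℝ) + 1)) * (s - s')) := by
          field_simp
        rw [e6]
        calc (2 * ((m:ℝ) + 1)) * (1 / (2 * ((m:ℝ) + 1)) * (s - s'))
            ≤ (2 * ((m:ℝ) + 1)) * ((1 / 4) * ‖w - w'‖ ^ 2) :=
              mul_le_mul_of_nonneg_left (e5.trans n1) (by positivity)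
          _ = (((m:ℝ) + 1) / 2) * ‖w - w'‖ ^ 2 := by ring
      · have e9 : ‖h - h'‖ ^ 2 ≤ ‖w - w'‖ ^ 2 := by linarith
        exact (abs_le_of_sq_le_sq' e9 (norm_nonneg _)).2
    apply sd_piece hn (R m k) (((m:ℝ) + 1) / 2) (by positivity)
    · intro w s h w' s' h' h1 h2
      rcases le_total s' s with hle | hle
      · exact (key w s h w' s' h' h1 h2 hle).1
      · have := (key w' s' h' w s h h2 h1 hle).1
        rw [abs_sub_comm, norm_sub_rev]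
        exact this
    · intro w s h w' s' h' h1 h2
      rcases le_total s' s with hle | hle
      · exact (key w s h w' s' h' h1 h2 hle).2
      · have := (key w' s' h' w s h h2 h1 hle).2
        rw [norm_sub_rev, norm_sub_rev w w']
        exact this
  have hall : ∀ᵐ s : ℝ, ∀ (m : ℕ) (k : ℤ), μH[(n : ℝ) - 2] {h | ∃ w, R m k w s h} = 0 := by
    rw [ae_all_iff]
    intro m
    rw [ae_all_iff]
    exact hnull m
  filter_upwards [hall] with s hs0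
  have hU : μH[(n : ℝ) - 2] (⋃ m : ℕ, ⋃ k : ℤ, {h | ∃ w, R m k w s h}) = 0 := by
    rw [measure_iUnion_null_iff]
    intro m
    rw [measure_iUnion_null_iff]
    exact hs0 m
  apply measure_mono_null _ hU
  intro h hh0
  obtain ⟨r₁, r₂, hlt, ha, hb⟩ := two_supergradients _ (hs h) s hh0
  obtain ⟨c, hc⟩ := exists_subgradient (H s) (hh s) h
  obtain ⟨m, hm⟩ := exists_nat_one_div_lt (sub_pos.2 hlt)
  refine mem_iUnion.2 ⟨m, mem_iUnion.2 ⟨⌊2 * ((m:ℝ) + 1) * r₁⌋, h + c, ?_⟩⟩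
  rw [hRd]
  exact ⟨c, r₁, r₂, rfl, ha, hb, hc, hm.le, Int.floor_le _, Int.lt_floor_add_one _⟩


end Xrsaddle

alias saddle_ae := Xrsaddle.saddle_ae

end Pool.Agent.Helper823.ManeN
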