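import Pool.Agent.Helper823.ManeN.Defs
import Pool.Agent.Helper823.ManeN.Xcont_lift
import Pool.Agent.Helper823.ManeN.Xnice
import Pool.Agent.Helper823.ManeN.Xbconv
import Pool.Agent.Helper823.ManeN.Xbconc
import Pool.Agent.Helper823.ManeN.Xbmin
import Pool.Agent.Helper823.ManeN.Xopen
import Pool.Agent.Helper823.ManeN.Xclosed
import Pool.Agent.Helper823.ManeN.Xfourier
import Pool.Agent.Helper823.ManeN.Xfsmooth
import Pool.Agent.Helper823.ManeN.Xckbdd
import Pool.Agent.Helper823.ManeN.Xgraph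
import Pool.Agent.Helper823.ManeN.Xexmin
import Pool.Agent.Helper823.ManeN.Xrsaddle
import Pool.Agent.Helper823.ManeN.Xdiffgood
import Pool.Agent.Helper823.ManeN.Xrcover

set_option autoImplicit false
open MeasureTheory Set Topology

namespace Pool.Agent.Helper823.ManeN
namespace Xfinal





































theorem fa_proj_surj {n : ℕ} (x : X n) : ∃ y : Fin (n + 1) → ℝ, proj y = x := by
  have h : ∀ i, ∃ r : ℝ, ((r : ℝ) : UnitAddCircle) = x i := fun i =>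
    QuotientAddGroup.mk_surjective (x i)
  choose y hy using h
  exact ⟨y, funext hy⟩

theorem fa_cont {n : ℕ} (k : ℕ) (f : X n → ℝ) (hf : IsCk k f) : Continuous f :=
  continuous_of_lift' f (ContDiff.continuous hf)

theorem fa_nice {n : ℕ} (k : ℕ) (hk : 2 ≤ k) (L : X n × E n → ℝ) (hL : IsTonelli k L) :
    Nice L := by
  have h := nice_add k hk L hL (fun _ => 0) continuous_const
  simpa using h

/-- the good sets -/
def faO {n : ℕ} (L : X n × E n → ℝ) (g : X n → ℝ) (N j : ℕ) : Set (X n → ℝ) :=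
  {f | ∃ F : Finset (E n × ℝ), (∀ b ∈ F, 0 < b.2) ∧ ∑ b ∈ F, b.2 ^ (n - 2) < 1 / ((j : ℝ) + 1) ∧
    ∀ h : E n, ‖h‖ ≤ (N : ℝ) → (∀ b ∈ F, b.2 ≤ ‖h - b.1‖) → Good L g f (1 / ((N : ℝ) + 1)) h}

theorem fa_mem {n : ℕ} (L : X n × E n → ℝ) (g : X n → ℝ) (N j : ℕ) (f : X n → ℝ) :
    f ∈ faO L g N j ↔ ∃ F : Finset (E n × ℝ), (∀ b ∈ F, 0 < b.2) ∧
      ∑ b ∈ F, b.2 ^ (n - 2) < 1 / ((j : ℝ) + 1) ∧
      ∀ h : E n, ‖h‖ ≤ (N : ℝ) → (∀ b ∈ F, b.2 ≤ ‖h - b.1‖) →
        Good L g f (1 / ((N : ℝ) + 1)) h := Iff.rfl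

theorem fa_compact {n : ℕ} (N : ℕ) (F : Finset (E n × ℝ)) :
    IsCompact {h : E n | ‖h‖ ≤ (N : ℝ) ∧ ∀ b ∈ F, b.2 ≤ ‖h - b.1‖} := by
  have he : {h : E n | ‖h‖ ≤ (N : ℝ) ∧ ∀ b ∈ F, b.2 ≤ ‖h - b.1‖}
      = Metric.closedBall (0 : E n) (N : ℝ) ∩ ⋂ b ∈ F, {h : E n | b.2 ≤ ‖h - b.1‖} := by
    apply Set.ext
    intro h
    constructor
    · rintro ⟨h1, h2⟩
      refine ⟨mem_closedBall_zero_iff.mpr h1, ?_⟩
      rw [Set.mem_iInter₂]
      intro b hb
      exact h2 b hb
    · rintro ⟨h1, h2⟩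
      rw [Set.mem_iInter₂] at h2
      exact ⟨mem_closedBall_zero_iff.mp h1, fun b hb => h2 b hb⟩
  rw [he]
  refine (isCompact_closedBall (0 : E n) (N : ℝ)).inter_right ?_
  refine isClosed_biInter fun b _ => ?_
  have hc : Continuous (fun h : E n => ‖h - b.1‖) := (continuous_id.sub continuous_const).norm
  exact isClosed_le continuous_const hc

theorem fa_open {n : ℕ} (k : ℕ) (L : X n × E n → ℝ) (hN : Nice L) (g : X n → ℝ) (hg : IsCk k g)
    (N j : ℕ) : IsOpenCk k (faO L g N j) := by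
  intro f hfO hf
  obtain ⟨F, hF1, hF2, hF3⟩ := (fa_mem L g N j f).mp hfO
  obtain ⟨η, hη, hgood⟩ := good_open L hN f g (fa_cont k f hf) (fa_cont k g hg)
    {h : E n | ‖h‖ ≤ (N : ℝ) ∧ ∀ b ∈ F, b.2 ≤ ‖h - b.1‖} (fa_compact N F)
    (1 / ((N : ℝ) + 1)) (fun h hh => hF3 h hh.1 hh.2)
  refine ⟨η, hη, ?_⟩
  intro f' hf' hclose
  refine (fa_mem L g N j f').mpr ⟨F, hF1, hF2, fun h h1 h2 => ?_⟩
  refine hgood f' (fa_cont k f' hf') ?_ h ⟨h1, h2⟩
  intro x
  obtain ⟨y, rfl⟩ := fa_proj_surj x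
  have h0 := hclose 0 (Nat.zero_le k) y
  rw [norm_iteratedFDeriv_zero] at h0
  simpa using h0

theorem fa_dense {n : ℕ} (hn : 2 ≤ n) (k : ℕ) (L : X n × E n → ℝ) (hN : Nice L) (g : X n → ℝ)
    (hg : IsCk k g) (N j : ℕ) : IsDenseCk k (faO L g N j) := by
  intro f hf ε hε
  have hgc := fa_cont k g hg
  have hfc := fa_cont k f hf
  obtain ⟨η, hη, hclose⟩ := close_small k f g hg ε hε
  have hs : ∀ h : E n, ConcaveOn ℝ Set.univ (fun s : ℝ => beta L (fun x => f x + s * g x) h) :=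
    fun h => beta_concave L hN f g hfc hgc h
  have hh : ∀ s : ℝ, ConvexOn ℝ Set.univ (beta L (fun x => f x + s * g x)) := fun s =>
    beta_convex L hN _ (hfc.add (continuous_const.mul hgc))
  have hae := saddle_ae hn (fun s h => beta L (fun x => f x + s * g x) h) hs hh
  have hd := Measure.dense_of_ae hae
  obtain ⟨s, hsη, hsd⟩ := hd.exists_mem_open (isOpen_Ioo (a := -η) (b := η)) ⟨0, by
    constructor <;> linarith⟩
  have hsabs : |s| < η := abs_lt.mpr hsd
  have hsη' : μH[(n : ℝ) - 2] {h : E n | ¬ DifferentiableAt ℝ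
      (fun s' => beta L (fun x => f x + s' * g x) h) s} = 0 := hsη
  refine ⟨fun x => f x + s * g x, ?_, ?_, hclose s hsabs⟩
  · have hf'c : Continuous (fun x => f x + s * g x) := hfc.add (continuous_const.mul hgc)
    have hgood : ∀ h : E n, DifferentiableAt ℝ (fun s' => beta L (fun x => f x + s' * g x) h) s →
        Good L g (fun x => f x + s * g x) (1 / ((N : ℝ) + 1)) h := by
      intro h hdiff
      have h1 := (second_difference (fun s : ℝ => beta L (fun x => f x + s * g x) h) (hs h) s).mp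
        hdiff (1 / ((N : ℝ) + 1)) (by positivity)
      obtain ⟨δ, hδ, h2⟩ := h1
      refine ⟨δ, hδ, ?_⟩
      have e1 : (fun x => f x + s * g x + δ * g x) = (fun x => f x + (s + δ) * g x) := by
        funext x; ring
      have e2 : (fun x => f x + s * g x + (-δ) * g x) = (fun x => f x + (s - δ) * g x) := by
        funext x; ring
      rw [e1, e2]
      exact h2
    have hKc : IsCompact ({h : E n | ¬ Good L g (fun x => f x + s * g x) (1 / ((N : ℝ) + 1)) h}
        ∩ Metric.closedBall (0 : E n) (N : ℝ)) :=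
      (isCompact_closedBall (0 : E n) (N : ℝ)).inter_left (bad_closed L hN _ g hf'c hgc _)
    have hK0 : μH[(n : ℝ) - 2] ({h : E n | ¬ Good L g (fun x => f x + s * g x)
        (1 / ((N : ℝ) + 1)) h} ∩ Metric.closedBall (0 : E n) (N : ℝ)) = 0 := by
      refine measure_mono_null ?_ hsη'
      rintro h ⟨h1, _⟩
      intro hdiff
      exact h1 (hgood h hdiff)
    obtain ⟨F, hF1, hF2, hF3⟩ := small_cover hn _ hKc hK0 (1 / ((j : ℝ) + 1)) (by positivity)
    refine (fa_mem L g N j _).mpr ⟨F, hF1, hF2, fun h h1 h2 => ?_⟩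
    by_contra hcon
    obtain ⟨b, hb, hlt⟩ := hF3 h ⟨hcon, mem_closedBall_zero_iff.mpr h1⟩
    exact absurd hlt (not_lt.mpr (h2 b hb))
  · have h1 : ContDiff ℝ k (fun y => f (proj y) + s * g (proj y)) :=
      ContDiff.add hf (contDiff_const.mul hg)
    exact h1

theorem fa_null {n : ℕ} (hn : 2 ≤ n) (L : X n × E n → ℝ) (g f : X n → ℝ) (N : ℕ)
    (hO : ∀ j : ℕ, f ∈ faO L g N j) :
    μH[(n : ℝ) - 2] {h : E n | ‖h‖ ≤ (N : ℝ) ∧ ¬ Good L g f (1 / ((N : ℝ) + 1)) h} = 0 := by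
  refine null_of_small_cover hn _ fun j => ?_
  obtain ⟨F, hF1, hF2, hF3⟩ := (fa_mem L g N j f).mp (hO j)
  refine ⟨F, hF1, hF2, ?_⟩
  rintro h ⟨h1, h2⟩
  by_contra hcon
  apply h2
  refine hF3 h h1 fun b hb => ?_
  by_contra hlt
  exact hcon ⟨b, hb, not_le.mp hlt⟩

theorem fa_diff {n : ℕ} (L : X n × E n → ℝ) (hN : Nice L) (f g : X n → ℝ) (hf : Continuous f)
    (hg : Continuous g) (h : E n)
    (hO : ∀ N : ℕ, ‖h‖ ≤ (N : ℝ) → Good L g f (1 / ((N : ℝ) + 1)) h) :
    DifferentiableAt ℝ (fun s : ℝ => beta L (fun x => f x + s * g x) h) 0 := by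
  rw [second_difference _ (beta_concave L hN f g hf hg h) 0]
  intro ε hε
  obtain ⟨N1, hN1⟩ := exists_nat_ge ‖h‖
  obtain ⟨N2, hN2⟩ := exists_nat_one_div_lt hε
  have hle : ‖h‖ ≤ ((max N1 N2 : ℕ) : ℝ) := hN1.trans (by exact_mod_cast le_max_left N1 N2)
  obtain ⟨δ, hδ, h2⟩ := hO (max N1 N2) hle
  refine ⟨δ, hδ, ?_⟩
  have e0 : (fun x => f x + (0 : ℝ) * g x) = f := by
    funext x; ring
  have e1 : (fun x => f x + (0 + δ) * g x) = (fun x => f x + δ * g x) := by
    funext x; ring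
  have e2 : (fun x => f x + (0 - δ) * g x) = (fun x => f x + (-δ) * g x) := by
    funext x; ring
  simp only [e0, e1, e2]
  refine lt_of_le_of_lt ?_ h2
  have h3 : 1 / (((max N1 N2 : ℕ) : ℝ) + 1) ≤ ε := by
    refine le_trans ?_ hN2.le
    apply one_div_le_one_div_of_le (by positivity)
    have : ((N2 : ℕ) : ℝ) ≤ ((max N1 N2 : ℕ) : ℝ) := by exact_mod_cast le_max_right N1 N2
    linarith
  have h4 := mul_le_mul_of_nonneg_right h3 (le_of_lt hδ)
  linarith

theorem fa_deriv {n : ℕ} (L : X n × E n → ℝ) (hN : Nice L) (f g : X n → ℝ) (hf : Continuous f)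
    (hg : Continuous g) (h : E n)
    (hd : DifferentiableAt ℝ (fun s : ℝ => beta L (fun x => f x + s * g x) h) 0)
    (μ : Measure (X n × E n)) (hμ : IsMinimizing (fun p => L p + f p.1) h μ) :
    ∫ p, g p.1 ∂μ = deriv (fun s : ℝ => beta L (fun x => f x + s * g x) h) 0 := by
  obtain ⟨_, _, h3⟩ := beta_eq_of_min L hN f hf h μ hμ
  have h4 := h3 g hg
  have hd' := hd.hasDerivAt
  have e0 : (fun x => f x + (0 : ℝ) * g x) = f := by
    funext x; ring
  set c := ∫ p, g p.1 ∂μ with hc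
  have h5 : HasDerivAt (fun s : ℝ => beta L f h + s * c - beta L (fun x => f x + s * g x) h)
      (c - deriv (fun s : ℝ => beta L (fun x => f x + s * g x) h) 0) 0 := by
    have h6 : HasDerivAt (fun s : ℝ => beta L f h + s * c) c 0 := by
      have := ((hasDerivAt_id (0 : ℝ)).mul_const c).const_add (beta L f h)
      simpa using this
    exact h6.sub hd'
  have h7 : IsLocalMin (fun s : ℝ => beta L f h + s * c - beta L (fun x => f x + s * g x) h) 0 := by
    refine Filter.Eventually.of_forall fun s => ?_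
    have := h4 s
    simp only [zero_mul, add_zero, sub_self]
    linarith
  have h8 := h7.hasDerivAt_eq_zero h5
  linarith

/-- the family of test functions -/
noncomputable def faG {n : ℕ} (q : (Fin (n + 1) → ℤ) × Bool) : X n → ℝ := fun x =>
  if q.2 = true then (UnitAddTorus.mFourier q.1 x).re else (UnitAddTorus.mFourier q.1 x).im

theorem faG_smooth {n : ℕ} (k : ℕ) (q : (Fin (n + 1) → ℤ) × Bool) : IsCk k (faG (n := n) q) := by
  obtain ⟨a, b⟩ := q
  cases b
  · exact (fourier_smooth k a).2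
  · exact (fourier_smooth k a).1

theorem fa_unique {n : ℕ} (k : ℕ) (hk : 2 ≤ k) (L : X n × E n → ℝ)
    (hL : IsTonelli k L) (f : X n → ℝ) (hf : IsCk k f) (h : E n)
    (hgood : ∀ (q : (Fin (n + 1) → ℤ) × Bool) (N : ℕ), ‖h‖ ≤ (N : ℝ) →
      Good L (faG q) f (1 / ((N : ℝ) + 1)) h) :
    ∃! μ : Measure (X n × E n), IsMinimizing (fun p => L p + f p.1) h μ := by
  have hN : Nice L := fa_nice k hk L hL
  have hfc := fa_cont k f hf
  have hnice : Nice (fun p : X n × E n => L p + f p.1) := nice_add k hk L hL f hfc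
  obtain ⟨μ, hμ⟩ := exists_minimizing _ hnice h
  refine ⟨μ, hμ, ?_⟩
  intro ν hν
  refine eq_of_same_projection _ hnice h ν μ hν hμ ?_
  haveI : IsProbabilityMeasure μ := hμ.1.1.prob
  haveI : IsProbabilityMeasure ν := hν.1.1.prob
  haveI : IsProbabilityMeasure (μ.map Prod.fst) :=
    Measure.isProbabilityMeasure_map measurable_fst.aemeasurable
  haveI : IsProbabilityMeasure (ν.map Prod.fst) :=
    Measure.isProbabilityMeasure_map measurable_fst.aemeasurable
  have key : ∀ q, ∫ x, faG (n := n) q x ∂(ν.map Prod.fst) = ∫ x, faG q x ∂(μ.map Prod.fst) := by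
    intro q
    have hc : Continuous (faG (n := n) q) := fa_cont k _ (faG_smooth k q)
    rw [integral_map measurable_fst.aemeasurable hc.aestronglyMeasurable,
      integral_map measurable_fst.aemeasurable hc.aestronglyMeasurable]
    have hd := fa_diff L hN f (faG q) hfc hc h (hgood q)
    rw [fa_deriv L hN f (faG q) hfc hc h hd ν hν, fa_deriv L hN f (faG q) hfc hc h hd μ hμ]
  apply measure_ext_fourier
  · intro a
    exact key (a, true)
  · intro a
    exact key (a, false)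

/-! TARGET: prove this one -/
theorem main {n : ℕ} (hn : 2 ≤ n) (k : ℕ) (hk : 2 ≤ k) (L : X n × E n → ℝ)
    (hL : IsTonelli k L) :
    IsResidualCk k {f | μH[(n : ℝ) - 2] {h : E n | ¬ ∃! μ : Measure (X n × E n),
      IsMinimizing (fun p => L p + f p.1) h μ} = 0} := by
  have hN : Nice L := fa_nice k hk L hL
  obtain ⟨e, he⟩ := exists_surjective_nat ((((Fin (n + 1) → ℤ) × Bool) × ℕ) × ℕ)
  refine ⟨fun i => faO L (faG (e i).1.1) (e i).1.2 (e i).2,
    fun i => fa_open k L hN _ (faG_smooth k _) _ _,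
    fun i => fa_dense hn k L hN _ (faG_smooth k _) _ _, ?_⟩
  intro f hf hfO
  have hO : ∀ q N j, f ∈ faO L (faG q) N j := by
    intro q N j
    obtain ⟨i, hi⟩ := he ((q, N), j)
    have h1 : f ∈ faO L (faG (e i).1.1) (e i).1.2 (e i).2 := hfO i
    rw [hi] at h1
    exact h1
  have hnull : μH[(n : ℝ) - 2] (⋃ q : (Fin (n + 1) → ℤ) × Bool, ⋃ N : ℕ,
      {h : E n | ‖h‖ ≤ (N : ℝ) ∧ ¬ Good L (faG q) f (1 / ((N : ℝ) + 1)) h}) = 0 := by
    refine measure_iUnion_null fun q => measure_iUnion_null fun N => ?_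
    exact fa_null hn L (faG q) f N (hO q N)
  refine measure_mono_null ?_ hnull
  intro h hh
  by_contra hcon
  apply hh
  refine fa_unique k hk L hL f hf h ?_
  intro q N hle
  by_contra hng
  apply hcon
  rw [Set.mem_iUnion]
  refine ⟨q, ?_⟩
  rw [Set.mem_iUnion]
  exact ⟨N, hle, hng⟩


end Xfinal

alias main := Xfinal.main

end Pool.Agent.Helper823.ManeN
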