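import Mathlib

set_option autoImplicit false

open MeasureTheory Set Topology

namespace Pool.Agent.Helper823.ManeN

/-- Velocities: the tangent spaces of `M = 𝕋ⁿ = (ℝ/ℤ)ⁿ`. -/
abbrev E (n : ℕ) := EuclideanSpace ℝ (Fin n)

/-- The space `𝕋 × M`, `M = 𝕋ⁿ`: coordinates `t, x₁, …, xₙ` modulo one.
The phase space `TM × 𝕋` is `X n × E n`. -/
abbrev X (n : ℕ) := UnitAddTorus (Fin (n + 1))

/-- The quotient map `ℝⁿ⁺¹ → (ℝ/ℤ)ⁿ⁺¹`. -/
def proj {n : ℕ} (y : Fin (n + 1) → ℝ) : X n := fun i => (y i : UnitAddCircle)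

/-- The vector `(1, v)` of `ℝ × ℝⁿ`. -/
def dir {n : ℕ} (v : E n) : Fin (n + 1) → ℝ := Fin.cons 1 (fun i => v i)

/-- `f` is a `C^k` function on `M × 𝕋`. -/
def IsCk {n : ℕ} (k : ℕ) (f : X n → ℝ) : Prop := ContDiff ℝ k (fun y => f (proj y))

/-- Tonelli Lagrangians of class `C^k` on `TM × 𝕋`. -/
structure IsTonelli {n : ℕ} (k : ℕ) (L : X n × E n → ℝ) : Prop where
  smooth : ContDiff ℝ k (fun z : (Fin (n + 1) → ℝ) × E n => L (proj z.1, z.2))
  convex : ∀ (x : X n) (v w : E n), w ≠ 0 →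
    0 < iteratedFDeriv ℝ 2 (fun u => L (x, u)) v (fun _ => w)
  superlinear : ∀ A : ℝ, ∃ R : ℝ, ∀ (x : X n) (v : E n), R ≤ ‖v‖ → A * ‖v‖ ≤ L (x, v)

/-- The total derivative `∂ₜφ + dφ(v)` of a function `φ` on `M × 𝕋` at `p = ((t, x), v)`. -/
noncomputable def totalDeriv {n : ℕ} (φ : X n → ℝ) (p : X n × E n) : ℝ :=
  deriv (fun τ : ℝ => φ (p.1 + proj (τ • dir p.2))) 0

/-- Closed (holonomic) probability measures on `TM × 𝕋`. -/
structure IsClosedMeasure {n : ℕ} (μ : Measure (X n × E n)) : Prop where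
  prob : IsProbabilityMeasure μ
  moment : Integrable (fun p : X n × E n => ‖p.2‖) μ
  closed : ∀ φ : X n → ℝ, IsCk 1 φ → ∫ p, totalDeriv φ p ∂μ = 0

/-- The homology class (rotation vector) in `H₁(𝕋ⁿ, ℝ) = ℝⁿ`. -/
noncomputable def rot {n : ℕ} (μ : Measure (X n × E n)) : E n := ∫ p : X n × E n, p.2 ∂μ

/-- `μ` is a closed probability measure of homology class `h` and finite action. -/
def Adm {n : ℕ} (L : X n × E n → ℝ) (h : E n) (μ : Measure (X n × E n)) : Prop :=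
  IsClosedMeasure μ ∧ Integrable L μ ∧ rot μ = h

/-- `μ` minimizes the action among the closed probability measures of homology class `h`. -/
def IsMinimizing {n : ℕ} (L : X n × E n → ℝ) (h : E n) (μ : Measure (X n × E n)) : Prop :=
  Adm L h μ ∧ ∀ ν : Measure (X n × E n), Adm L h ν → ∫ p, L p ∂μ ≤ ∫ p, L p ∂ν

/-- `‖f - g‖_{C^k} < ε` (all derivatives up to order `k` of the difference of the lifts). -/
def CloseCk {n : ℕ} (k : ℕ) (f g : X n → ℝ) (ε : ℝ) : Prop :=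
  ∀ j ≤ k, ∀ y : Fin (n + 1) → ℝ,
    ‖iteratedFDeriv ℝ j (fun z => f (proj z) - g (proj z)) y‖ < ε

/-- `O ∩ C^k(M × 𝕋)` is open in `C^k(M × 𝕋)`. -/
def IsOpenCk {n : ℕ} (k : ℕ) (O : Set (X n → ℝ)) : Prop :=
  ∀ f ∈ O, IsCk k f → ∃ ε > 0, ∀ g, IsCk k g → CloseCk k f g ε → g ∈ O

/-- `O ∩ C^k(M × 𝕋)` is dense in `C^k(M × 𝕋)`. -/
def IsDenseCk {n : ℕ} (k : ℕ) (O : Set (X n → ℝ)) : Prop :=
  ∀ f, IsCk k f → ∀ ε > 0, ∃ g ∈ O, IsCk k g ∧ CloseCk k f g ε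

/-- `S ∩ C^k(M × 𝕋)` contains a countable intersection of open dense subsets of
`C^k(M × 𝕋)`. -/
def IsResidualCk {n : ℕ} (k : ℕ) (S : Set (X n → ℝ)) : Prop :=
  ∃ O : ℕ → Set (X n → ℝ), (∀ i, IsOpenCk k (O i)) ∧ (∀ i, IsDenseCk k (O i)) ∧
    ∀ f, IsCk k f → (∀ i, f ∈ O i) → f ∈ S

/-- (internal) the action value: `beta L f h` is the infimum of `∫ (L + f)` over the closed
probability measures of class `h`. -/
noncomputable def beta {n : ℕ} (L : X n × E n → ℝ) (f : X n → ℝ) (h : E n) : ℝ :=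
  sInf {a : ℝ | ∃ μ : Measure (X n × E n), Adm L h μ ∧ a = ∫ p, (L p + f p.1) ∂μ}

/-- (internal) continuous, bounded below, fibrewise strictly convex, superlinear. -/
structure Nice {n : ℕ} (L : X n × E n → ℝ) : Prop where
  cont : Continuous L
  bdd : ∃ B : ℝ, ∀ p, B ≤ L p
  convex : ∀ x : X n, StrictConvexOn ℝ Set.univ (fun v => L (x, v))
  superlinear : ∀ A : ℝ, ∃ R : ℝ, ∀ (x : X n) (v : E n), R ≤ ‖v‖ → A * ‖v‖ ≤ L (x, v)

/-- (internal) the second difference of `s ↦ beta L (f + s g) h` at `0` is not too negative. -/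
def Good {n : ℕ} (L : X n × E n → ℝ) (g f : X n → ℝ) (ε : ℝ) (h : E n) : Prop :=
  ∃ δ > 0, -(ε * δ) < beta L (fun x => f x + δ * g x) h
    + beta L (fun x => f x + (-δ) * g x) h - 2 * beta L f h

/-- half open grid cubes of side `δ` -/
def Cube {n : ℕ} (z : Fin n → ℤ) (δ : ℝ) : Set (Fin n → ℝ) :=
  {x | ∀ i, (z i : ℝ) * δ ≤ x i ∧ x i < ((z i : ℝ) + 1) * δ}


end Pool.Agent.Helper823.ManeN
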