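import Pool.Agent.Helper823.ManeN.Defs
import Pool.Agent.Helper823.ManeN.Xmix
import Pool.Agent.Helper823.ManeN.Xbary

set_option autoImplicit false
open MeasureTheory Set Topology

namespace Pool.Agent.Helper823.ManeN
namespace Xgraph







/-! TARGET: prove this one -/
theorem eq_of_same_projection {n : ℕ} (L : X n × E n → ℝ) (hL : Nice L) (h : E n)
    (μ ν : Measure (X n × E n)) (hμ : IsMinimizing L h μ) (hν : IsMinimizing L h ν)
    (hproj : μ.map Prod.fst = ν.map Prod.fst) : μ = ν := by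
  obtain ⟨hadm, hint⟩ := adm_mix L h h μ ν hμ.1 hν.1 (1 / 2) (1 / 2) (by norm_num) (by norm_num)
    (by norm_num)
  set ρ : Measure (X n × E n) := ENNReal.ofReal (1 / 2) • μ + ENNReal.ofReal (1 / 2) • ν with hρ
  have hh : (1 / 2 : ℝ) • h + (1 / 2 : ℝ) • h = h := by
    rw [← add_smul]; norm_num
  rw [hh] at hadm
  have e1 : ∫ p, L p ∂μ = ∫ p, L p ∂ν := le_antisymm (hμ.2 ν hν.1) (hν.2 μ hμ.1)
  have e2 : ∫ p, L p ∂ρ = ∫ p, L p ∂μ := by
    rw [hint L hμ.1.2.1 hν.1.2.1, ← e1]
    ring
  obtain ⟨V, hVm, hVadm, hle, heq⟩ := barycenter L hL h ρ hadm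
  have h3 : ∫ p, L p ∂((ρ.map Prod.fst).map (fun x => (x, V x))) = ∫ p, L p ∂ρ := by
    refine le_antisymm hle ?_
    rw [e2]
    exact hμ.2 _ hVadm
  have hae := heq h3
  have hhalf : ENNReal.ofReal (1 / 2) ≠ 0 := by
    rw [Ne, ENNReal.ofReal_eq_zero]
    norm_num
  rw [hρ, ae_add_measure_iff, Measure.ae_ennreal_smul_measure_iff hhalf,
    Measure.ae_ennreal_smul_measure_iff hhalf] at hae
  have hgm : Measurable (fun x : X n => (x, V x)) := measurable_id.prodMk hVm
  have key : ∀ m : Measure (X n × E n), (∀ᵐ p ∂m, p.2 = V p.1) →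
      m = (m.map Prod.fst).map (fun x => (x, V x)) := by
    intro m hm
    rw [Measure.map_map hgm measurable_fst]
    conv_lhs => rw [← Measure.map_id (μ := m)]
    apply Measure.map_congr
    filter_upwards [hm] with p hp
    simp only [id, Function.comp]
    exact Prod.ext rfl hp
  rw [key μ hae.1, key ν hae.2, hproj]




end Xgraph

alias eq_of_same_projection := Xgraph.eq_of_same_projection

end Pool.Agent.Helper823.ManeN
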